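import Pool.Agent.Helper44.PC.Code
import Pool.Agent.Helper99.TT.ReadD

/-!
# Part C: readings, canonical forms and exact trees are arithmetical
-/

set_option autoImplicit false

noncomputable section

namespace Pool.Agent.Helper44.PC

open Helper99.TT Encodable
open Pool.Agent.Helper44.CL
open Pool.Agent.Helper98.T (upd)

universe u₁ u₂ u₃

variable {α : Type u₁} {β : Type u₂} {γ : Type u₃}
variable [Primcodable α] [Primcodable β] [Primcodable γ]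
variable {q q' : (ℕ → Set ℕ) → α → Cond} {a : (ℕ → Set ℕ) → α → List H}

/-- Arithmetical readings. -/
def ArRd (R : (ℕ → Set ℕ) → α → Rd) : Prop :=
  ArG fun ρ (p : α × (List H × Node)) => R ρ p.1 p.2.1 p.2.2

theorem ArRd.comp {R : (ℕ → Set ℕ) → β → Rd} (hR : ArRd R) {f : α → β} (hf : Primrec f) :
    ArRd (fun ρ a => R ρ (f a)) :=
  ArG.comp (f := fun p : α × (List H × Node) => (f p.1, p.2)) hR
    ((hf.comp Primrec.fst).pair Primrec.snd)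

theorem ArRd.w {R : (ℕ → Set ℕ) → α → Rd} (hR : ArRd R) :
    ArRd (fun ρ (p : α × β) => R ρ p.1) := hR.comp Primrec.fst

theorem ArRd.at {R : (ℕ → Set ℕ) → α → Rd} (hR : ArRd R) {b : (ℕ → Set ℕ) → α → List H}
    {x : (ℕ → Set ℕ) → α → Node} (hb : ArG b) (hx : ArG x) :
    ArG (fun ρ a => R ρ a (b ρ a) (x ρ a)) :=
  ArG.app (F := fun ρ (p : α × (List H × Node)) => R ρ p.1 p.2.1 p.2.2) hR
    (ArG.id.pair (hb.pair hx))

theorem arG_take {f : (ℕ → Set ℕ) → α → List β} {g : (ℕ → Set ℕ) → α → ℕ} (hf : ArG f)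
    (hg : ArG g) : ArG (fun ρ a => (f ρ a).take (g ρ a)) :=
  ArG.map₂ (F := fun (k : ℕ) (l : List β) => l.take k) Primrec.list_take hg hf

theorem ar_cmp {s t : (ℕ → Set ℕ) → α → List Bool} (hs : ArG s) (ht : ArG t) :
    Ar (fun ρ a => Cmp (s ρ a) (t ρ a)) := Ar.or (Ar.isPrefix hs ht) (Ar.isPrefix ht hs)

theorem reading_iff (R : Rd) (q : Cond) (a : List H) : Reading R q a ↔
    (∀ x ∈ q.F, ∀ y ∈ q.F, x <+: y → ∀ b c, IsReal q a x b → IsReal q a y c → b <+: c →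
      R b x <+: R c y) ∧
    (∀ n : ℕ, ∃ K : ℕ, ∀ x ∈ q.F, K ≤ plc x → ∀ b, IsReal q a x b → n ≤ (R b x).length) :=
  ⟨fun h => ⟨h.mono, h.long⟩, fun h => ⟨h.1, h.2⟩⟩

variable {R : (ℕ → Set ℕ) → α → Rd}

theorem ar_reading (hR : ArRd R) (hq : ArC q) (ha : ArG a) :
    Ar (fun ρ i => Reading (R ρ i) (q ρ i) (a ρ i)) := by
  refine Ar.of_eq ?_ fun ρ i => reading_iff _ _ _
  refine Ar.and ?_ ?_
  · refine Ar.allM hq.F (Ar.allM hq.F.w (Ar.imp (Ar.isPrefix (ArG.prim pv1) (ArG.prim pv0))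
      (Ar.all (Ar.all (Ar.imp (ar_isReal hq.w.w.w.w ha.w.w.w.w (ArG.prim pv3) (ArG.prim pv1))
        (Ar.imp (ar_isReal hq.w.w.w.w ha.w.w.w.w (ArG.prim pv2) (ArG.prim pv0))
          (Ar.imp (Ar.isPrefix (ArG.prim pv1) (ArG.prim pv0)) ?_)))))))
    exact Ar.isPrefix (hR.w.w.w.w.at (ArG.prim pv1) (ArG.prim pv3))
      (hR.w.w.w.w.at (ArG.prim pv0) (ArG.prim pv2))
  · refine Ar.all (Ar.ex (Ar.allM hq.F.w.w (Ar.imp (Ar.gle (ArG.prim pv1)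
      (arG_plc (ArG.prim pv0))) (Ar.all (Ar.imp (ar_isReal hq.w.w.w.w ha.w.w.w.w (ArG.prim pv1)
        (ArG.prim pv0)) ?_)))))
    exact Ar.gle (ArG.prim pv3) (hR.w.w.w.w.at (ArG.prim pv0) (ArG.prim pv1)).length

theorem ar_rdFn {A : (ℕ → Set ℕ) → α → ℕ → H} {B : (ℕ → Set ℕ) → α → ℕ → Step}
    {n : (ℕ → Set ℕ) → α → ℕ} (hR : ArRd R) (hq : ArC q)
    (hA : ArG fun ρ (p : α × ℕ) => A ρ p.1 p.2) (hB : ArG fun ρ (p : α × ℕ) => B ρ p.1 p.2)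
    (hn : ArG n) :
    Ar (fun ρ i => rdFn (R ρ i) (q ρ i) (A ρ i) (B ρ i) (n ρ i) = true) := by
  refine Ar.of_eq (R := fun ρ i => ∃ x ∈ (q ρ i).F, Thru (B ρ i) x ∧
    (R ρ i (preA (A ρ i) (plc x)) x)[n ρ i]? = some true) (Ar.exM hq.F (Ar.and ?_ ?_)) ?_
  · exact ar_thru (B := fun ρ (p : α × Node) => B ρ p.1)
      (ArG.comp hB ((Primrec.fst.comp Primrec.fst).pair Primrec.snd)) (ArG.prim pv0)
  · refine Ar.geq (ArG.get? (hR.w.at ?_ (ArG.prim pv0)) hn.w) (ArG.const _)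
    exact arG_preA (A := fun ρ (p : α × Node) => A ρ p.1)
      (ArG.comp hA ((Primrec.fst.comp Primrec.fst).pair Primrec.snd)) (arG_plc (ArG.prim pv0))
  · intro ρ i
    unfold rdFn
    split_ifs with h
    · simp only [true_iff]; exact h
    · simp only [false_iff]; exact h

theorem ar_A0 (hR : ArRd R) (hq : ArC q) (ha : ArG a) :
    Ar (fun ρ i => A0 (R ρ i) (q ρ i) (a ρ i)) := by
  refine Ar.allM hq.F (Ar.allM hq.F.w (Ar.all (Ar.all (Ar.imp (ar_isReal hq.w.w.w.w ha.w.w.w.w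
    (ArG.prim pv3) (ArG.prim pv1)) (Ar.imp (ar_isReal hq.w.w.w.w ha.w.w.w.w (ArG.prim pv2)
      (ArG.prim pv0)) ?_)))))
  exact ar_cmp (hR.w.w.w.w.at (ArG.prim pv1) (ArG.prim pv3))
    (hR.w.w.w.w.at (ArG.prim pv0) (ArG.prim pv2))

theorem ar_A1 {n : (ℕ → Set ℕ) → α → ℕ} (hR : ArRd R) (hq : ArC q) (ha : ArG a) (hn : ArG n) :
    Ar (fun ρ i => A1 (R ρ i) (q ρ i) (a ρ i) (n ρ i)) := by
  refine Ar.and ?_ ?_
  · refine Ar.allM hq.F (Ar.allM hq.F.w (Ar.all (Ar.all (Ar.imp (ar_isReal hq.w.w.w.w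
      ha.w.w.w.w (ArG.prim pv3) (ArG.prim pv1)) (Ar.imp (ar_isReal hq.w.w.w.w ha.w.w.w.w
        (ArG.prim pv2) (ArG.prim pv0)) (Ar.imp (Ar.all (Ar.imp ?_ (Ar.imp ?_ ?_))) ?_))))))
    · exact Ar.glt (ArG.prim pv0) (arG_plc (ArG.prim pv4))
    · exact Ar.glt (ArG.prim pv0) (arG_plc (ArG.prim pv3))
    · exact ar_eqv hn.w.w.w.w.w (ArG.getD (ArG.prim pv2) (ArG.prim pv0) 0)
        (ArG.getD (ArG.prim pv1) (ArG.prim pv0) 0)
    · exact ar_cmp (hR.w.w.w.w.at (ArG.prim pv1) (ArG.prim pv3))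
        (hR.w.w.w.w.at (ArG.prim pv0) (ArG.prim pv2))
  · refine Ar.all (Ar.ex (Ar.allM hq.F.w.w (Ar.allM hq.F.w.w.w ?_)))
    refine Ar.imp (Ar.gle (ArG.prim pv3) (arG_plc (ArG.prim pv1))) ?_
    refine Ar.imp (Ar.gle (ArG.prim pv3) (arG_plc (ArG.prim pv0))) (Ar.all (Ar.all ?_))
    refine Ar.imp (ar_isReal hq.w.w.w.w.w.w ha.w.w.w.w.w.w (ArG.prim pv3) (ArG.prim pv1)) ?_
    refine Ar.imp (ar_isReal hq.w.w.w.w.w.w ha.w.w.w.w.w.w (ArG.prim pv2) (ArG.prim pv0)) ?_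
    refine Ar.imp
      (Ar.gle (ArG.prim pv4) (hR.w.w.w.w.w.w.at (ArG.prim pv1) (ArG.prim pv3)).length) ?_
    refine Ar.imp
      (Ar.gle (ArG.prim pv4) (hR.w.w.w.w.w.w.at (ArG.prim pv0) (ArG.prim pv2)).length) ?_
    refine Ar.imp (Ar.ex (Ar.and ?_ ?_)) (Ar.not ?_)
    · exact Ar.glt (ArG.prim pv0) ((ArG.prim pv5).w)
    · exact (ar_eqv hn.w.w.w.w.w.w.w (ArG.getD (ArG.prim pv2) (ArG.prim pv0) 0)
        (ArG.getD (ArG.prim pv1) (ArG.prim pv0) 0)).not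
    · exact ar_cmp
        (arG_take (hR.w.w.w.w.w.w.at (ArG.prim pv1) (ArG.prim pv3)) (ArG.prim pv4))
        (arG_take (hR.w.w.w.w.w.w.at (ArG.prim pv0) (ArG.prim pv2)) (ArG.prim pv4))

theorem ar_ADec (hR : ArRd R) (hq : ArC q) (ha : ArG a) :
    Ar (fun ρ i => ADec (R ρ i) (q ρ i) (a ρ i)) := by
  refine Ar.allM hq.F (Ar.ex (Ar.allM hq.F.w.w (Ar.allM hq.F.w.w.w ?_)))
  refine Ar.imp (Ar.isPrefix (ArG.prim pv3) (ArG.prim pv1)) ?_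
  refine Ar.imp (Ar.isPrefix (ArG.prim pv3) (ArG.prim pv0)).not ?_
  refine Ar.imp (Ar.isPrefix (ArG.prim pv0) (ArG.prim pv3)).not (Ar.all (Ar.all ?_))
  refine Ar.imp (ar_isReal hq.w.w.w.w.w.w ha.w.w.w.w.w.w (ArG.prim pv3) (ArG.prim pv1)) ?_
  refine Ar.imp (ar_isReal hq.w.w.w.w.w.w ha.w.w.w.w.w.w (ArG.prim pv2) (ArG.prim pv0)) ?_
  refine Ar.imp
    (Ar.gle (ArG.prim pv4) (hR.w.w.w.w.w.w.at (ArG.prim pv1) (ArG.prim pv3)).length) ?_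
  refine Ar.imp
    (Ar.gle (ArG.prim pv4) (hR.w.w.w.w.w.w.at (ArG.prim pv0) (ArG.prim pv2)).length) ?_
  exact Ar.gne
    (arG_take (hR.w.w.w.w.w.w.at (ArG.prim pv1) (ArG.prim pv3)) (ArG.prim pv4))
    (arG_take (hR.w.w.w.w.w.w.at (ArG.prim pv0) (ArG.prim pv2)) (ArG.prim pv4))

theorem ar_A2 (hR : ArRd R) (hq : ArC q) (ha : ArG a) :
    Ar (fun ρ i => A2 (R ρ i) (q ρ i) (a ρ i)) := by
  refine Ar.and (Ar.allM hq.F (Ar.all (Ar.all (Ar.imp (ar_isReal hq.w.w.w ha.w.w.w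
    (ArG.prim pv2) (ArG.prim pv1)) (Ar.imp (ar_isReal hq.w.w.w ha.w.w.w (ArG.prim pv2)
      (ArG.prim pv0)) ?_))))) (ar_ADec hR hq ha)
  exact ar_cmp (hR.w.w.w.at (ArG.prim pv1) (ArG.prim pv2))
    (hR.w.w.w.at (ArG.prim pv0) (ArG.prim pv2))

theorem ar_A3 (hR : ArRd R) (hq : ArC q) (ha : ArG a) :
    Ar (fun ρ i => A3 (R ρ i) (q ρ i) (a ρ i)) := by
  refine Ar.and (ar_ADec hR hq ha) (Ar.allM hq.F (Ar.all (Ar.all ?_)))
  refine Ar.imp (ar_isReal hq.w.w.w ha.w.w.w (ArG.prim pv2) (ArG.prim pv1)) ?_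
  refine Ar.imp (ar_isReal hq.w.w.w ha.w.w.w (ArG.prim pv2) (ArG.prim pv0)) ?_
  refine Ar.imp (Ar.gne (ArG.prim pv1) (ArG.prim pv0)) (Ar.ex (Ar.allM hq.F.w.w.w.w ?_))
  refine Ar.imp (Ar.isPrefix (ArG.prim pv4) (ArG.prim pv0)) (Ar.allM hq.F.w.w.w.w.w ?_)
  refine Ar.imp (Ar.isPrefix (ArG.prim pv5) (ArG.prim pv0)) (Ar.all (Ar.all ?_))
  refine Ar.imp (ar_isReal hq.w.w.w.w.w.w.w.w ha.w.w.w.w.w.w.w.w (ArG.prim pv3)
    (ArG.prim pv1)) ?_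
  refine Ar.imp (ar_isReal hq.w.w.w.w.w.w.w.w ha.w.w.w.w.w.w.w.w (ArG.prim pv2)
    (ArG.prim pv0)) ?_
  refine Ar.imp (Ar.isPrefix (ArG.prim pv5).w (ArG.prim pv1)) ?_
  refine Ar.imp (Ar.isPrefix (ArG.prim pv5) (ArG.prim pv0)) ?_
  refine Ar.imp (Ar.gle (ArG.prim pv4)
    (hR.w.w.w.w.w.w.w.w.at (ArG.prim pv1) (ArG.prim pv3)).length) ?_
  refine Ar.imp (Ar.gle (ArG.prim pv4)
    (hR.w.w.w.w.w.w.w.w.at (ArG.prim pv0) (ArG.prim pv2)).length) ?_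
  exact Ar.gne
    (arG_take (hR.w.w.w.w.w.w.w.w.at (ArG.prim pv1) (ArG.prim pv3)) (ArG.prim pv4))
    (arG_take (hR.w.w.w.w.w.w.w.w.at (ArG.prim pv0) (ArG.prim pv2)) (ArG.prim pv4))

theorem ar_ACan (hR : ArRd R) (hq : ArC q) (ha : ArG a) :
    Ar (fun ρ i => ACan (R ρ i) (q ρ i) (a ρ i)) :=
  Ar.or (ar_A0 hR hq ha) (Ar.or (Ar.ex (ar_A1 hR.w hq.w ha.w (ArG.prim pv0)))
    (Ar.or (ar_A2 hR hq ha) (ar_A3 hR hq ha)))

/-! ## Codes of readings -/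

/-- The real which codes a reading. -/
def encR (R : Rd) : Set ℕ := gcode (fun p : List H × Node => R p.1 p.2)

/-- The reading coded by a real. -/
def decR (x : Set ℕ) : Rd := fun b y => gdec x (b, y)

@[simp] theorem decR_encR (R : Rd) : decR (encR R) = R := by
  funext b y
  unfold decR encR
  rw [gdec_gcode]

theorem arRd_decR {X : (ℕ → Set ℕ) → α → Set ℕ} (hX : ArS X) : ArRd (fun ρ a => decR (X ρ a)) :=
  ArG.gdec (β := List H × Node) (γ := List Bool) hX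

theorem arS_encR {R : (ℕ → Set ℕ) → α → Rd} (hR : ArRd R) : ArS (fun ρ a => encR (R ρ a)) :=
  ArS.gcode (β := List H × Node) (γ := List Bool)
    (F := fun ρ a (p : List H × Node) => R ρ a p.1 p.2) hR

end Pool.Agent.Helper44.PC
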