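import Pool.Agent.Helper99.PC.Code
import Pool.Agent.Helper44.PC.Read

/-! Part C: the general calculus for the codes of `Helper99.PC.Code`. -/

set_option autoImplicit false

noncomputable section

namespace Pool.Agent.Helper44.PC

open Helper99.TT Encodable
open Pool.Agent.Helper44.CL hiding TT

universe u

variable {α : Type u} [Primcodable α]

theorem arC_decC (i : ℕ) : ArC (fun ρ (_ : α) => Helper99.PC.decC (ρ i)) :=
  ⟨Helper99.PC.ar_t i Primrec.snd, Helper99.PC.ar_memV i pv1 pv0,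
    Helper99.PC.ar_memF i Primrec.snd⟩

theorem arG_decP (i : ℕ) : ArG (fun ρ (_ : α) => Helper99.PC.decP (ρ i)) :=
  Helper99.PC.ar_decP i Primrec.snd

/-- codes are arithmetical -/
theorem arS_encP {f : (ℕ → Set ℕ) → α → List H} {Q : (ℕ → Set ℕ) → α → Cond}
    (hf : ArG f) (hQ : ArC Q) : ArS (fun ρ u => Helper99.PC.enc (f ρ u) (Q ρ u)) := by
  refine Helper99.PC.arS_enc hf hQ.t ?_ hQ.F
  exact Ar.comp (f := fun p : α × ℕ × H => ((p.1, p.2.1), p.2.2)) hQ.V
    ((Primrec.fst.pair (Primrec.fst.comp Primrec.snd)).pair (Primrec.snd.comp Primrec.snd))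

/-- substitution of an arithmetical real in a condition-valued function of one oracle -/
theorem arC_decC' {X : (ℕ → Set ℕ) → α → Set ℕ} (hX : ArS X) :
    ArC (fun ρ u => Helper99.PC.decC (X ρ u)) := by
  refine ⟨?_, ?_, ?_⟩
  · exact Ar.subst (F := fun _ ρ (p : α × Node) => X ρ p.1)
      (R := fun ρ (p : α × Node) => (Helper99.PC.decC (ρ 0)).t = p.2)
      (Helper99.PC.ar_t 0 Primrec.snd) (fun _ => ArS.w hX) Primrec.id
  · exact Ar.subst (F := fun _ ρ (p : (α × ℕ) × H) => X ρ p.1.1)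
      (R := fun ρ (p : (α × ℕ) × H) => p.2 ∈ (Helper99.PC.decC (ρ 0)).V p.1.2)
      (Helper99.PC.ar_memV 0 pv1 pv0) (fun _ => ArS.w (ArS.w hX)) Primrec.id
  · exact Ar.subst (F := fun _ ρ (p : α × Node) => X ρ p.1)
      (R := fun ρ (p : α × Node) => p.2 ∈ (Helper99.PC.decC (ρ 0)).F)
      (Helper99.PC.ar_memF 0 Primrec.snd) (fun _ => ArS.w hX) Primrec.id

end Pool.Agent.Helper44.PC
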