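import Pool.Agent.Helper44.CL.Interface

/-!
# Part C: a calculus for arithmetical relations, functions and sets
-/

set_option autoImplicit false

noncomputable section

namespace Pool.Agent.Helper44.CL

open Encodable

universe u₁ u₂ u₃ u₄

variable {α : Type u₁} {β : Type u₂} {γ : Type u₃} {δ : Type u₄}
variable [Primcodable α] [Primcodable β] [Primcodable γ] [Primcodable δ]

/-! ## Variables -/

theorem pv0 : Primrec (fun p : α × β => p.2) := Primrec.snd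
theorem pv1 : Primrec (fun p : (α × β) × γ => p.1.2) := Primrec.snd.comp Primrec.fst
theorem pv2 : Primrec (fun p : ((α × β) × γ) × δ => p.1.1.2) := pv1.comp Primrec.fst
theorem pv3 {ε : Type*} [Primcodable ε] : Primrec (fun p : (((α × β) × γ) × δ) × ε => p.1.1.1.2) :=
  pv2.comp Primrec.fst
theorem pv4 {ε ζ : Type*} [Primcodable ε] [Primcodable ζ] :
    Primrec (fun p : ((((α × β) × γ) × δ) × ε) × ζ => p.1.1.1.1.2) :=
  pv3.comp Primrec.fst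
theorem pv5 {ε ζ η : Type*} [Primcodable ε] [Primcodable ζ] [Primcodable η] :
    Primrec (fun p : (((((α × β) × γ) × δ) × ε) × ζ) × η => p.1.1.1.1.1.2) :=
  pv4.comp Primrec.fst

/-! ## Functions with an arithmetical graph -/

/-- Functions with an arithmetical graph. -/
def ArG (f : (ℕ → Set ℕ) → α → β) : Prop := Ar fun ρ (p : α × β) => f ρ p.1 = p.2

/-- Arithmetical sets. -/
def ArSet (S : (ℕ → Set ℕ) → α → Set β) : Prop := Ar fun ρ (p : α × β) => p.2 ∈ S ρ p.1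

/-- Arithmetical finite sets. -/
def ArFin (S : (ℕ → Set ℕ) → α → Finset β) : Prop := Ar fun ρ (p : α × β) => p.2 ∈ S ρ p.1

theorem Ar.w {R : (ℕ → Set ℕ) → α → Prop} (h : Ar R) : Ar (fun ρ (p : α × β) => R ρ p.1) :=
  h.comp Primrec.fst

theorem ArG.prim {f : α → β} (hf : Primrec f) : ArG (fun _ a => f a) := by
  classical
  exact Ar.eq (hf.comp Primrec.fst) Primrec.snd

theorem ArG.const (b : β) : ArG (fun _ (_ : α) => b) := ArG.prim (Primrec.const b)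

theorem ArG.id : ArG (fun _ (a : α) => a) := ArG.prim Primrec.id

theorem ArG.of_eq {f g : (ℕ → Set ℕ) → α → β} (h : ArG f) (e : ∀ ρ a, g ρ a = f ρ a) : ArG g := by
  have : g = f := by
    funext ρ a
    exact e ρ a
  rw [this]; exact h

theorem ArSet.of_eq {f g : (ℕ → Set ℕ) → α → Set β} (h : ArSet f) (e : ∀ ρ a, g ρ a = f ρ a) :
    ArSet g := by
  have : g = f := by
    funext ρ a
    exact e ρ a
  rw [this]; exact h

theorem Ar.at {R : (ℕ → Set ℕ) → α → β → Prop} (h : Ar fun ρ (p : α × β) => R ρ p.1 p.2)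
    {f : (ℕ → Set ℕ) → α → β} (hf : ArG f) : Ar (fun ρ a => R ρ a (f ρ a)) :=
  (Ar.ex (R := fun ρ a b => f ρ a = b ∧ R ρ a b) (Ar.and hf h)).of_eq fun ρ a =>
    ⟨fun h => ⟨_, rfl, h⟩, by rintro ⟨b, rfl, h⟩; exact h⟩

theorem Ar.app {R : (ℕ → Set ℕ) → β → Prop} (h : Ar R)
    {f : (ℕ → Set ℕ) → α → β} (hf : ArG f) : Ar (fun ρ a => R ρ (f ρ a)) :=
  Ar.at (R := fun ρ _ b => R ρ b) (h.comp Primrec.snd) hf

theorem ArG.comp {F : (ℕ → Set ℕ) → β → γ} (hF : ArG F) {f : α → β} (hf : Primrec f) :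
    ArG (fun ρ a => F ρ (f a)) :=
  Ar.comp hF ((hf.comp Primrec.fst).pair Primrec.snd)

theorem ArG.w {f : (ℕ → Set ℕ) → α → β} (h : ArG f) : ArG (fun ρ (p : α × γ) => f ρ p.1) :=
  h.comp Primrec.fst

theorem ArSet.comp {F : (ℕ → Set ℕ) → β → Set γ} (hF : ArSet F) {f : α → β} (hf : Primrec f) :
    ArSet (fun ρ a => F ρ (f a)) :=
  Ar.comp hF ((hf.comp Primrec.fst).pair Primrec.snd)

theorem ArSet.w {f : (ℕ → Set ℕ) → α → Set β} (h : ArSet f) :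
    ArSet (fun ρ (p : α × γ) => f ρ p.1) :=
  h.comp Primrec.fst

theorem ArFin.comp {F : (ℕ → Set ℕ) → β → Finset γ} (hF : ArFin F) {f : α → β} (hf : Primrec f) :
    ArFin (fun ρ a => F ρ (f a)) :=
  Ar.comp hF ((hf.comp Primrec.fst).pair Primrec.snd)

theorem ArFin.w {f : (ℕ → Set ℕ) → α → Finset β} (h : ArFin f) :
    ArFin (fun ρ (p : α × γ) => f ρ p.1) :=
  h.comp Primrec.fst

theorem ArS.comp {F : (ℕ → Set ℕ) → β → Set ℕ} (hF : ArS F) {f : α → β} (hf : Primrec f) :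
    ArS (fun ρ a => F ρ (f a)) :=
  Ar.comp hF ((hf.comp Primrec.fst).pair Primrec.snd)

theorem ArS.w {f : (ℕ → Set ℕ) → α → Set ℕ} (h : ArS f) :
    ArS (fun ρ (p : α × γ) => f ρ p.1) :=
  ArS.comp h Primrec.fst

theorem ArG.pair {f : (ℕ → Set ℕ) → α → β} {g : (ℕ → Set ℕ) → α → γ} (hf : ArG f) (hg : ArG g) :
    ArG (fun ρ a => (f ρ a, g ρ a)) := by
  have h1 : Ar (fun ρ (p : α × β × γ) => f ρ p.1 = p.2.1) :=
    Ar.comp hf (Primrec.fst.pair (Primrec.fst.comp Primrec.snd))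
  have h2 : Ar (fun ρ (p : α × β × γ) => g ρ p.1 = p.2.2) :=
    Ar.comp hg (Primrec.fst.pair (Primrec.snd.comp Primrec.snd))
  exact (h1.and h2).of_eq fun ρ p => Prod.ext_iff

theorem ArG.app {F : (ℕ → Set ℕ) → β → γ} (hF : ArG F) {f : (ℕ → Set ℕ) → α → β} (hf : ArG f) :
    ArG (fun ρ a => F ρ (f ρ a)) := by
  have h1 : Ar (fun ρ (q : (α × γ) × β) => F ρ q.2 = q.1.2) :=
    Ar.comp hF (Primrec.snd.pair pv1)
  exact Ar.at (R := fun ρ (p : α × γ) b => F ρ b = p.2) h1 hf.w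

theorem ArG.map {F : β → γ} (hF : Primrec F) {f : (ℕ → Set ℕ) → α → β} (hf : ArG f) :
    ArG (fun ρ a => F (f ρ a)) := (ArG.prim hF).app hf

theorem ArG.map₂ {F : β → γ → δ} (hF : Primrec₂ F) {f : (ℕ → Set ℕ) → α → β}
    {g : (ℕ → Set ℕ) → α → γ} (hf : ArG f) (hg : ArG g) :
    ArG (fun ρ a => F (f ρ a) (g ρ a)) :=
  ArG.app (F := fun _ (p : β × γ) => F p.1 p.2) (ArG.prim hF) (hf.pair hg)

/-- A two place version of `ArG.app`. -/
theorem ArG.app₂ {F : (ℕ → Set ℕ) → β → γ → δ} (hF : ArG fun ρ (p : β × γ) => F ρ p.1 p.2)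
    {f : (ℕ → Set ℕ) → α → β} {g : (ℕ → Set ℕ) → α → γ} (hf : ArG f) (hg : ArG g) :
    ArG (fun ρ a => F ρ (f ρ a) (g ρ a)) := hF.app (hf.pair hg)

/-- The function may depend on the parameter. -/
theorem ArG.at {F : (ℕ → Set ℕ) → α → β → γ} (hF : ArG fun ρ (p : α × β) => F ρ p.1 p.2)
    {f : (ℕ → Set ℕ) → α → β} (hf : ArG f) : ArG (fun ρ a => F ρ a (f ρ a)) :=
  ArG.app (F := fun ρ (p : α × β) => F ρ p.1 p.2) hF (ArG.id.pair hf)

theorem Ar.app₂ {R : (ℕ → Set ℕ) → β → γ → Prop} (h : Ar fun ρ (p : β × γ) => R ρ p.1 p.2)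
    {f : (ℕ → Set ℕ) → α → β} {g : (ℕ → Set ℕ) → α → γ} (hf : ArG f) (hg : ArG g) :
    Ar (fun ρ a => R ρ (f ρ a) (g ρ a)) :=
  Ar.app (R := fun ρ (p : β × γ) => R ρ p.1 p.2) h (hf.pair hg)

theorem Ar.geq {f g : (ℕ → Set ℕ) → α → β} (hf : ArG f) (hg : ArG g) :
    Ar (fun ρ a => f ρ a = g ρ a) := Ar.at (R := fun ρ a b => f ρ a = b) hf hg

theorem Ar.gne {f g : (ℕ → Set ℕ) → α → β} (hf : ArG f) (hg : ArG g) :
    Ar (fun ρ a => f ρ a ≠ g ρ a) := (Ar.geq hf hg).not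

theorem Ar.glt {f g : (ℕ → Set ℕ) → α → ℕ} (hf : ArG f) (hg : ArG g) :
    Ar (fun ρ a => f ρ a < g ρ a) :=
  Ar.app₂ (R := fun _ m n => m < n) (Ar.lt Primrec.fst Primrec.snd) hf hg

theorem Ar.gle {f g : (ℕ → Set ℕ) → α → ℕ} (hf : ArG f) (hg : ArG g) :
    Ar (fun ρ a => f ρ a ≤ g ρ a) :=
  Ar.app₂ (R := fun _ m n => m ≤ n) (Ar.le Primrec.fst Primrec.snd) hf hg

theorem Ar.ite {R S T : (ℕ → Set ℕ) → α → Prop} (hR : Ar R) (hS : Ar S) (hT : Ar T) :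
    Ar (fun ρ a => (R ρ a ∧ S ρ a) ∨ (¬ R ρ a ∧ T ρ a)) := (hR.and hS).or (hR.not.and hT)

theorem ArG.ite {R : (ℕ → Set ℕ) → α → Prop} [∀ ρ a, Decidable (R ρ a)] (hR : Ar R)
    {f g : (ℕ → Set ℕ) → α → β} (hf : ArG f) (hg : ArG g) :
    ArG (fun ρ a => if R ρ a then f ρ a else g ρ a) := by
  refine (Ar.ite (hR.w (β := β)) hf hg).of_eq fun ρ p => ?_
  by_cases h : R ρ p.1 <;> simp [h]

theorem ArSet.ite {R : (ℕ → Set ℕ) → α → Prop} [∀ ρ a, Decidable (R ρ a)] (hR : Ar R)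
    {f g : (ℕ → Set ℕ) → α → Set β} (hf : ArSet f) (hg : ArSet g) :
    ArSet (fun ρ a => if R ρ a then f ρ a else g ρ a) := by
  refine (Ar.ite (hR.w (β := β)) hf hg).of_eq fun ρ p => ?_
  by_cases h : R ρ p.1 <;> simp [h]

theorem Ar.gmem {f : (ℕ → Set ℕ) → α → β} {S : (ℕ → Set ℕ) → α → Set β} (hf : ArG f)
    (hS : ArSet S) : Ar (fun ρ a => f ρ a ∈ S ρ a) :=
  Ar.at (R := fun ρ a b => b ∈ S ρ a) hS hf

theorem Ar.gmemF {f : (ℕ → Set ℕ) → α → β} {S : (ℕ → Set ℕ) → α → Finset β} (hf : ArG f)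
    (hS : ArFin S) : Ar (fun ρ a => f ρ a ∈ S ρ a) :=
  Ar.at (R := fun ρ a b => b ∈ S ρ a) hS hf

theorem Ar.gmemS {f : (ℕ → Set ℕ) → α → ℕ} {S : (ℕ → Set ℕ) → α → Set ℕ} (hf : ArG f)
    (hS : ArS S) : Ar (fun ρ a => f ρ a ∈ S ρ a) :=
  Ar.at (R := fun ρ a b => b ∈ S ρ a) hS hf

theorem Ar.imp' {R S : (ℕ → Set ℕ) → α → Prop} (h : Ar R) (h' : Ar S) :
    Ar (fun ρ a => R ρ a → S ρ a) := Ar.imp h h'

/-- Bounded quantifiers. -/
theorem Ar.allM {S : (ℕ → Set ℕ) → α → Set β} {R : (ℕ → Set ℕ) → α → β → Prop} (hS : ArSet S)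
    (hR : Ar fun ρ (p : α × β) => R ρ p.1 p.2) : Ar (fun ρ a => ∀ b ∈ S ρ a, R ρ a b) :=
  Ar.all (R := fun ρ a b => b ∈ S ρ a → R ρ a b) (Ar.imp hS hR)

theorem Ar.exM {S : (ℕ → Set ℕ) → α → Set β} {R : (ℕ → Set ℕ) → α → β → Prop} (hS : ArSet S)
    (hR : Ar fun ρ (p : α × β) => R ρ p.1 p.2) : Ar (fun ρ a => ∃ b ∈ S ρ a, R ρ a b) :=
  Ar.ex (R := fun ρ a b => b ∈ S ρ a ∧ R ρ a b) (Ar.and hS hR)

theorem Ar.allF {S : (ℕ → Set ℕ) → α → Finset β} {R : (ℕ → Set ℕ) → α → β → Prop} (hS : ArFin S)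
    (hR : Ar fun ρ (p : α × β) => R ρ p.1 p.2) : Ar (fun ρ a => ∀ b ∈ S ρ a, R ρ a b) :=
  Ar.all (R := fun ρ a b => b ∈ S ρ a → R ρ a b) (Ar.imp hS hR)

theorem Ar.exF {S : (ℕ → Set ℕ) → α → Finset β} {R : (ℕ → Set ℕ) → α → β → Prop} (hS : ArFin S)
    (hR : Ar fun ρ (p : α × β) => R ρ p.1 p.2) : Ar (fun ρ a => ∃ b ∈ S ρ a, R ρ a b) :=
  Ar.ex (R := fun ρ a b => b ∈ S ρ a ∧ R ρ a b) (Ar.and hS hR)

/-! ## Lists -/

theorem Ar.isPrefix {f g : (ℕ → Set ℕ) → α → List β} (hf : ArG f) (hg : ArG g) :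
    Ar (fun ρ a => f ρ a <+: g ρ a) := by
  refine (Ar.ex (R := fun ρ a (l : List β) => f ρ a ++ l = g ρ a) ?_).of_eq fun ρ a => Iff.rfl
  exact Ar.geq (ArG.map₂ Primrec.list_append hf.w (ArG.prim pv0)) hg.w

theorem ArG.app_list {f g : (ℕ → Set ℕ) → α → List β} (hf : ArG f) (hg : ArG g) :
    ArG (fun ρ a => f ρ a ++ g ρ a) := ArG.map₂ Primrec.list_append hf hg

theorem ArG.concat {f : (ℕ → Set ℕ) → α → List β} {g : (ℕ → Set ℕ) → α → β} (hf : ArG f)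
    (hg : ArG g) : ArG (fun ρ a => f ρ a ++ [g ρ a]) := ArG.map₂ Primrec.list_concat hf hg

theorem ArG.length {f : (ℕ → Set ℕ) → α → List β} (hf : ArG f) :
    ArG (fun ρ a => (f ρ a).length) := ArG.map Primrec.list_length hf

theorem ArG.getD {f : (ℕ → Set ℕ) → α → List β} {g : (ℕ → Set ℕ) → α → ℕ} (hf : ArG f)
    (hg : ArG g) (d : β) : ArG (fun ρ a => (f ρ a).getD (g ρ a) d) :=
  ArG.map₂ (Primrec.list_getD d) hf hg

theorem ArG.get? {f : (ℕ → Set ℕ) → α → List β} {g : (ℕ → Set ℕ) → α → ℕ} (hf : ArG f)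
    (hg : ArG g) : ArG (fun ρ a => (f ρ a)[g ρ a]?) :=
  ArG.map₂ Primrec.list_getElem? hf hg

theorem ArG.some {f : (ℕ → Set ℕ) → α → β} (hf : ArG f) : ArG (fun ρ a => Option.some (f ρ a)) :=
  ArG.map Primrec.option_some hf

theorem Ar.memL {f : (ℕ → Set ℕ) → α → β} {g : (ℕ → Set ℕ) → α → List β} (hf : ArG f)
    (hg : ArG g) : Ar (fun ρ a => f ρ a ∈ g ρ a) := by
  refine (Ar.ex (R := fun ρ a (i : ℕ) => (g ρ a)[i]? = Option.some (f ρ a)) ?_).of_eq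
    fun ρ a => List.mem_iff_getElem?
  exact Ar.geq (ArG.get? hg.w (ArG.prim pv0)) hf.w.some

theorem Ar.allL {f : (ℕ → Set ℕ) → α → List β} {R : (ℕ → Set ℕ) → α → β → Prop} (hf : ArG f)
    (hR : Ar fun ρ (p : α × β) => R ρ p.1 p.2) : Ar (fun ρ a => ∀ b ∈ f ρ a, R ρ a b) :=
  Ar.all (R := fun ρ a b => b ∈ f ρ a → R ρ a b) (Ar.imp (Ar.memL (ArG.prim pv0) hf.w) hR)

theorem Ar.nodup {f : (ℕ → Set ℕ) → α → List β} (hf : ArG f) :
    Ar (fun ρ a => (f ρ a).Nodup) := by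
  refine (Ar.all (R := fun ρ a (i : ℕ) => ∀ j : ℕ, i < j → j < (f ρ a).length →
    (f ρ a)[i]? ≠ (f ρ a)[j]?) (Ar.all ?_)).of_eq fun ρ a => List.nodup_iff_getElem?_ne_getElem?
  exact Ar.imp (Ar.glt (ArG.prim pv1) (ArG.prim pv0)) (Ar.imp (Ar.glt (ArG.prim pv0)
    hf.w.w.length) (Ar.gne (ArG.get? hf.w.w (ArG.prim pv1)) (ArG.get? hf.w.w (ArG.prim pv0))))

theorem ArG.add {f g : (ℕ → Set ℕ) → α → ℕ} (hf : ArG f) (hg : ArG g) :
    ArG (fun ρ a => f ρ a + g ρ a) := ArG.map₂ Primrec.nat_add hf hg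

theorem ArG.sub {f g : (ℕ → Set ℕ) → α → ℕ} (hf : ArG f) (hg : ArG g) :
    ArG (fun ρ a => f ρ a - g ρ a) := ArG.map₂ Primrec.nat_sub hf hg

theorem ArG.fst {f : (ℕ → Set ℕ) → α → β × γ} (hf : ArG f) : ArG (fun ρ a => (f ρ a).1) :=
  ArG.map Primrec.fst hf

theorem ArG.snd {f : (ℕ → Set ℕ) → α → β × γ} (hf : ArG f) : ArG (fun ρ a => (f ρ a).2) :=
  ArG.map Primrec.snd hf

/-- The code of an element (with a fixed instance). -/
abbrev pc (b : β) : ℕ := @encode β Primcodable.toEncodable b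

theorem primrec_pc : Primrec (pc : β → ℕ) := Primrec.encode

theorem pc_injective : Function.Injective (pc : β → ℕ) := encode_injective

theorem pc_inj {a b : β} : pc a = pc b ↔ a = b := pc_injective.eq_iff

/-! ## Choice of the element with the least code -/

open Classical in
/-- The element of `β` with the least code in `S`. -/
def pick [Inhabited β] (S : Set ℕ) : β :=
  if h : ∃ n, ∃ b : β, encode b = n ∧ n ∈ S then (Nat.find_spec h).choose else default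

theorem pick_eq_iff [Inhabited β] {S : Set ℕ} {b : β} :
    pick S = b ↔ (encode b ∈ S ∧ ∀ b' : β, encode b' ∈ S → encode b ≤ encode b') ∨
      ((∀ b' : β, encode b' ∉ S) ∧ b = default) := by
  classical
  unfold pick
  split_ifs with h
  · obtain ⟨h1, h2⟩ := (Nat.find_spec h).choose_spec
    have h3 : ∀ b' : β, encode b' ∈ S → encode (Nat.find_spec h).choose ≤ encode b' := by
      intro b' hb'
      rw [h1]
      exact Nat.find_min' h ⟨b', rfl, hb'⟩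
    constructor
    · rintro rfl
      exact Or.inl ⟨by rw [h1]; exact h2, h3⟩
    · rintro (⟨h4, h5⟩ | ⟨h4, _⟩)
      · exact encode_injective (le_antisymm (h3 _ h4) (h5 _ (by rw [h1]; exact h2)))
      · exact (h4 _ (by rw [h1]; exact h2)).elim
  · push Not at h
    constructor
    · rintro rfl
      exact Or.inr ⟨fun b' hb' => h _ b' rfl hb', rfl⟩
    · rintro (⟨h4, _⟩ | ⟨_, h4⟩)
      · exact (h _ b rfl h4).elim
      · exact h4.symm

theorem pick_mem [Inhabited β] {S : Set ℕ} (h : ∃ b : β, encode b ∈ S) :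
    encode (pick S : β) ∈ S := by
  rcases (pick_eq_iff (S := S) (b := (pick S : β))).1 rfl with h1 | h1
  · exact h1.1
  · obtain ⟨b, hb⟩ := h
    exact (h1.1 b hb).elim

theorem pick_unique [Inhabited β] {S : Set ℕ} {b : β} (h : ∀ b' : β, encode b' ∈ S ↔ b' = b) :
    pick S = b := by
  rw [pick_eq_iff]
  refine Or.inl ⟨(h b).2 rfl, fun b' hb' => ?_⟩
  rw [(h b').1 hb']

@[simp] theorem pick_singleton [Inhabited β] (b : β) : pick {encode b} = b :=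
  pick_unique fun b' => by simp

theorem ArG.pick [Inhabited β] {S : (ℕ → Set ℕ) → α → Set ℕ} (hS : ArS S) :
    ArG (fun ρ a => (pick (S ρ a) : β)) := by
  refine (Ar.or (Ar.and ?_ (Ar.all (R := fun ρ (p : α × β) (b' : β) => encode b' ∈ S ρ p.1 →
    encode p.2 ≤ encode b') ?_)) (Ar.and (Ar.all (R := fun ρ (p : α × β) (b' : β) =>
      encode b' ∉ S ρ p.1) ?_) (Ar.geq (ArG.prim pv0) (ArG.const default)))).of_eq
      fun ρ p => pick_eq_iff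
  · exact Ar.gmemS (ArG.map Primrec.encode (ArG.prim pv0)) (ArS.w hS)
  · exact Ar.imp (Ar.gmemS (ArG.map Primrec.encode (ArG.prim pv0)) (ArS.w (ArS.w hS)))
      (Ar.gle (ArG.map Primrec.encode (ArG.prim pv1)) (ArG.map Primrec.encode (ArG.prim pv0)))
  · exact (Ar.gmemS (ArG.map Primrec.encode (ArG.prim pv0)) (ArS.w (ArS.w hS))).not

/-! ## Reals which code functions and sets -/

/-- The real which codes a function. -/
def gcode (f : β → γ) : Set ℕ := {n | ∃ b, n = encode (b, f b)}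

/-- The function coded by a real. -/
def gdec [Inhabited γ] (x : Set ℕ) (b : β) : γ :=
  pick {n | ∃ c : γ, n = encode c ∧ encode (b, c) ∈ x}

theorem gdec_eq [Inhabited γ] {x : Set ℕ} {b : β} {c : γ}
    (h : ∀ c' : γ, encode (b, c') ∈ x ↔ c' = c) : gdec x b = c := by
  refine pick_unique fun b' => ?_
  rw [← h b']
  constructor
  · rintro ⟨c', h1, h2⟩
    rwa [encode_injective h1]
  · intro h1
    exact ⟨b', rfl, h1⟩

@[simp] theorem gdec_gcode [Inhabited γ] (f : β → γ) : gdec (gcode f) = f := by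
  funext b
  refine gdec_eq fun c' => ?_
  simp [gcode, encode_inj]

/-- The real which codes a set. -/
def scode (S : Set β) : Set ℕ := {n | ∃ b ∈ S, n = encode b}

/-- The set coded by a real. -/
def sdec (x : Set ℕ) : Set β := {b | encode b ∈ x}

@[simp] theorem sdec_scode (S : Set β) : sdec (scode S) = S := by
  ext b
  simp [sdec, scode, encode_inj]

theorem ArG.gdec [Inhabited γ] {X : (ℕ → Set ℕ) → α → Set ℕ} (hX : ArS X) :
    ArG (fun ρ (p : α × β) => (gdec (X ρ p.1) p.2 : γ)) := by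
  refine ArG.pick (S := fun ρ (p : α × β) =>
    {n | ∃ c : γ, n = encode c ∧ encode (p.2, c) ∈ X ρ p.1}) ?_
  refine Ar.ex (R := fun ρ (p : (α × β) × ℕ) (c : γ) => p.2 = encode c ∧
    encode (p.1.2, c) ∈ X ρ p.1.1) ?_
  exact Ar.and (Ar.geq (ArG.prim pv1) (ArG.map Primrec.encode (ArG.prim pv0)))
    (Ar.gmemS (ArG.map Primrec.encode ((ArG.prim pv2).pair (ArG.prim pv0)))
      (ArS.w (ArS.w (ArS.w hX))))

theorem ArS.gcode {F : (ℕ → Set ℕ) → α → β → γ} (hF : ArG fun ρ (p : α × β) => F ρ p.1 p.2) :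
    ArS (fun ρ a => gcode (F ρ a)) := by
  refine Ar.ex (R := fun ρ (p : α × ℕ) (b : β) => p.2 = encode (b, F ρ p.1 b)) ?_
  exact Ar.geq (ArG.prim pv1) (ArG.map Primrec.encode ((ArG.prim pv0).pair
    (ArG.comp hF ((Primrec.fst.comp Primrec.fst).pair Primrec.snd))))

theorem ArS.scode {S : (ℕ → Set ℕ) → α → Set β} (hS : ArSet S) :
    ArS (fun ρ a => scode (S ρ a)) := by
  refine Ar.ex (R := fun ρ (p : α × ℕ) (b : β) => b ∈ S ρ p.1 ∧ p.2 = encode b) ?_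
  exact Ar.and (Ar.gmem (ArG.prim pv0) (ArSet.w (ArSet.w hS)))
    (Ar.geq (ArG.prim pv1) (ArG.map Primrec.encode (ArG.prim pv0)))

theorem ArSet.sdec {X : (ℕ → Set ℕ) → α → Set ℕ} (hX : ArS X) :
    ArSet (fun ρ a => (sdec (X ρ a) : Set β)) :=
  Ar.gmemS (ArG.map Primrec.encode (ArG.prim pv0)) (ArS.w hX)

theorem ArSet.setOf {R : (ℕ → Set ℕ) → α → β → Prop}
    (hR : Ar fun ρ (p : α × β) => R ρ p.1 p.2) : ArSet (fun ρ a => {b | R ρ a b}) := hR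

/-! ## Joins -/

theorem ArS.join {s : (ℕ → Set ℕ) → α → ℕ → Set ℕ} (h : ArS fun ρ (p : α × ℕ) => s ρ p.1 p.2) :
    ArS (fun ρ a => join (s ρ a)) :=
  Ar.comp (f := fun p : α × ℕ => ((p.1, p.2.unpair.1), p.2.unpair.2)) h
    ((Primrec.fst.pair (Primrec.fst.comp (Primrec.unpair.comp Primrec.snd))).pair
      (Primrec.snd.comp (Primrec.unpair.comp Primrec.snd)))

theorem ArS.col {X : (ℕ → Set ℕ) → α → Set ℕ} (hX : ArS X) {g : (ℕ → Set ℕ) → α → ℕ}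
    (hg : ArG g) : ArS (fun ρ a => col (X ρ a) (g ρ a)) := by
  show Ar (fun ρ (p : α × ℕ) => Nat.pair (g ρ p.1) p.2 ∈ X ρ p.1)
  exact Ar.gmemS (ArG.map₂ Primrec₂.natPair hg.w (ArG.prim pv0)) (ArS.w hX)

theorem ArS.jn {X Y : (ℕ → Set ℕ) → α → Set ℕ} (hX : ArS X) (hY : ArS Y) :
    ArS (fun ρ a => jn (X ρ a) (Y ρ a)) := by
  have h1 : Primrec (fun p : α × ℕ => p.2.unpair.1) :=
    Primrec.fst.comp (Primrec.unpair.comp Primrec.snd)
  have h2 : Primrec (fun p : α × ℕ => p.2.unpair.2) :=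
    Primrec.snd.comp (Primrec.unpair.comp Primrec.snd)
  refine (((Ar.eq h1 (Primrec.const 0)).and (Ar.comp hX (Primrec.fst.pair h2))).or
    ((Ar.eq h1 (Primrec.const 1)).and (Ar.comp hY (Primrec.fst.pair h2)))).of_eq fun ρ p => ?_
  simp only [CL.jn, CL.join, Set.mem_ofPred_eq]
  rcases h : p.2.unpair.1 with _ | _ | m
  · simp
  · simp
  · simp [cons]

theorem ArS.single {f : (ℕ → Set ℕ) → α → ℕ} (hf : ArG f) : ArS (fun ρ a => {f ρ a}) :=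
  Ar.geq (ArG.prim pv0) hf.w

theorem ArS.tag {f : (ℕ → Set ℕ) → α → ℕ} (hf : ArG f) {X : (ℕ → Set ℕ) → α → Set ℕ}
    (hX : ArS X) : ArS (fun ρ a => tag (f ρ a) (X ρ a)) := ArS.jn (ArS.single hf) hX

theorem ArS.empty : ArS (fun _ (_ : α) => (∅ : Set ℕ)) :=
  (Ar.const (α := α × ℕ) False).of_eq fun _ _ => Iff.rfl

theorem ArS.cons {X : (ℕ → Set ℕ) → α → Set ℕ} {Y : (ℕ → Set ℕ) → α → ℕ → Set ℕ} (hX : ArS X)
    (hY : ArS fun ρ (p : α × ℕ) => Y ρ p.1 p.2) :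
    ArS (fun ρ (p : α × ℕ) => cons (X ρ p.1) (Y ρ p.1) p.2) := by
  have h1 : Ar (fun ρ (p : (α × ℕ) × ℕ) => p.2 ∈ X ρ p.1.1) := ArS.w hX
  have h2 : Ar (fun ρ (p : (α × ℕ) × ℕ) => p.2 ∈ Y ρ p.1.1 (p.1.2 - 1)) :=
    Ar.comp (f := fun p : (α × ℕ) × ℕ => ((p.1.1, p.1.2 - 1), p.2)) hY
      (((Primrec.fst.comp Primrec.fst).pair (Primrec.nat_sub.comp pv1 (Primrec.const 1))).pair
        Primrec.snd)
  refine (Ar.ite (Ar.eq pv1 (Primrec.const 0)) h1 h2).of_eq fun ρ p => ?_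
  rcases p with ⟨⟨a, i⟩, n⟩
  cases i <;> simp [CL.cons]

theorem ArS.of_eq {f g : (ℕ → Set ℕ) → α → Set ℕ} (h : ArS f) (e : ∀ ρ a, g ρ a = f ρ a) :
    ArS g := by
  have : g = f := by
    funext ρ a
    exact e ρ a
  rw [this]; exact h

/-! ## Third-order definable relations -/

section

variable {RL : Set (Set ℕ)} {PS : Set (Set (Set ℕ))}

theorem TT.at {R : (ℕ → Set ℕ) → α → β → Prop} (h : TT RL PS fun ρ (p : α × β) => R ρ p.1 p.2)
    {f : (ℕ → Set ℕ) → α → β} (hf : ArG f) : TT RL PS (fun ρ a => R ρ a (f ρ a)) :=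
  (TT.ex (R := fun ρ a b => f ρ a = b ∧ R ρ a b) (TT.and (TT.ar hf) h)).of_eq fun ρ a =>
    ⟨fun h => ⟨_, rfl, h⟩, by rintro ⟨b, rfl, h⟩; exact h⟩

theorem TT.app {R : (ℕ → Set ℕ) → β → Prop} (h : TT RL PS R)
    {f : (ℕ → Set ℕ) → α → β} (hf : ArG f) : TT RL PS (fun ρ a => R ρ (f ρ a)) :=
  TT.at (R := fun ρ _ b => R ρ b) (h.comp Primrec.snd) hf

theorem TT.w {R : (ℕ → Set ℕ) → α → Prop} (h : TT RL PS R) :
    TT RL PS (fun ρ (p : α × β) => R ρ p.1) := h.comp Primrec.fst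

theorem TT.allM {S : (ℕ → Set ℕ) → α → Set β} {R : (ℕ → Set ℕ) → α → β → Prop} (hS : ArSet S)
    (hR : TT RL PS fun ρ (p : α × β) => R ρ p.1 p.2) :
    TT RL PS (fun ρ a => ∀ b ∈ S ρ a, R ρ a b) :=
  TT.all (R := fun ρ a b => b ∈ S ρ a → R ρ a b) (TT.imp (TT.ar hS) hR)

theorem TT.exM {S : (ℕ → Set ℕ) → α → Set β} {R : (ℕ → Set ℕ) → α → β → Prop} (hS : ArSet S)
    (hR : TT RL PS fun ρ (p : α × β) => R ρ p.1 p.2) :
    TT RL PS (fun ρ a => ∃ b ∈ S ρ a, R ρ a b) :=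
  TT.ex (R := fun ρ a b => b ∈ S ρ a ∧ R ρ a b) (TT.and (TT.ar hS) hR)

end

namespace Iface

variable {cle : Set ℕ → Set ℕ → Prop} {L2 : Set (Set (Set ℕ))} (I : Iface cle L2)
include I

theorem arS {F : (ℕ → Set ℕ) → α → Set ℕ} (hF : ArS F) (ρ : ℕ → Set ℕ) (a : α) (z : Set ℕ)
    (hρ : ∀ i, cle (ρ i) z) : cle (F ρ a) z := by
  have h1 : Ar (fun ρ (n : ℕ) => n ∈ F ρ a) := Ar.comp hF ((Primrec.const a).pair Primrec.id)
  exact I.arith (ar_iff_arN.1 h1) ρ z hρ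

/-- Typed comprehension. -/
theorem comprT {R : (ℕ → Set ℕ) → α → Prop} (hR : TT {x | cle x ∅} L2 R) (ρ : ℕ → Set ℕ) (a : α)
    (hρ : ∀ i, cle (ρ i) ∅) : {x | cle x ∅ ∧ R (cons x ρ) a} ∈ L2 := by
  have h1 := I.compr hR ρ (encode a) hρ
  have e : {x | cle x ∅ ∧ ∃ b : α, decode (encode a) = some b ∧ R (cons x ρ) b} =
      {x | cle x ∅ ∧ R (cons x ρ) a} := by
    ext x
    simp
  rw [← e]
  exact h1

/-- Typed sequences of sets of reals in `L2`. -/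
theorem seqT {R : (ℕ → Set ℕ) → ℕ → Prop} (hR : TT {x | cle x ∅} L2 R) (ρ : ℕ → Set ℕ)
    (hρ : ∀ i, cle (ρ i) ∅) : SeqIn L2 (fun n => {x | cle x ∅ ∧ R (cons x ρ) n}) := by
  -- `x = tag n y` is decoded by `n = pick (col x 0)`, `y = col x 1`
  have hg : ArG (fun ρ (_ : ℕ) => (pick (col (ρ 0) 0) : ℕ)) :=
    ArG.pick (ArS.col (ArS.orac 0) (ArG.const 0))
  have h1 : TT {x | cle x ∅} L2 (fun ρ (_ : ℕ) =>
      R (cons (col (ρ 0) 1) (fun i => ρ (i + 1))) (pick (col (ρ 0) 0) : ℕ)) := by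
    have h2 : TT {x | cle x ∅} L2 (fun ρ (n : ℕ) =>
        R (cons (col (ρ 0) 1) (fun i => ρ (i + 1))) n) := by
      have h3 := TT.subst hR (F := fun i ρ (_ : ℕ) =>
        cons (col (ρ 0) 1) (fun i => ρ (i + 1)) i) (fun i => by
          cases i with
          | zero => exact ArS.col (ArS.orac 0) (ArG.const 1)
          | succ i => exact ArS.orac (i + 1))
      exact h3
    exact TT.app h2 hg
  have h2 : TT {x | cle x ∅} L2 (fun ρ (k : ℕ) =>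
      (ρ 0 = tag (pick (col (ρ 0) 0)) (col (ρ 0) 1)) ∧
      R (cons (col (ρ 0) 1) (fun i => ρ (i + 1))) (pick (col (ρ 0) 0) : ℕ)) := by
    refine TT.and (TT.ar ?_) h1
    refine (Ar.all (R := fun ρ (_ : ℕ) (m : ℕ) => m ∈ ρ 0 ↔
      m ∈ tag (pick (col (ρ 0) 0)) (col (ρ 0) 1)) ?_).of_eq fun ρ _ => Set.ext_iff
    refine Ar.iff (Ar.orac 0 Primrec.snd) (Ar.gmemS (ArG.prim pv0)
      (ArS.tag (ArG.comp hg Primrec.fst) (ArS.col (ArS.orac 0) (ArG.const 1))))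
  have h3 := I.comprT h2 ρ 0 hρ
  refine Eq.mp ?_ h3
  congr 1
  ext x
  simp only [Set.mem_ofPred_eq, cons_zero, cons_succ]
  constructor
  · rintro ⟨hx, h4, h5⟩
    exact ⟨_, _, ⟨I.trans _ _ _ (I.col_le (I.refl x) 1) hx, h5⟩, h4⟩
  · rintro ⟨n, y, ⟨hy, h4⟩, rfl⟩
    have e1 : (pick (col (tag n y) 0) : ℕ) = n := by
      rw [tag, col_jn_zero]
      exact pick_singleton n
    have e2 : col (tag n y) 1 = y := by rw [tag, col_jn_one]
    rw [e1, e2]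
    refine ⟨?_, rfl, h4⟩
    refine I.jn_le ?_ hy
    have h6 := I.arS (α := ℕ) (F := fun _ m => {m}) (ArS.single ArG.id) (fun _ => ∅) n ∅
      (fun _ => I.refl _)
    exact h6

/-- A third-order definable real is in `L`. -/
theorem realT {R : (ℕ → Set ℕ) → ℕ → Prop} (hR : TT {x | cle x ∅} L2 R) (ρ : ℕ → Set ℕ)
    (hρ : ∀ i, cle (ρ i) ∅) : cle {n | R ρ n} ∅ := by
  have h1 : TT {x | cle x ∅} L2 (fun ρ (n : ℕ) => 0 ∈ ρ 1 ↔ R (fun i => ρ (i + 2)) n) := by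
    refine TT.iff (TT.ar (Ar.orac 1 (Primrec.const 0))) ?_
    exact TT.subst hR (F := fun i ρ (_ : ℕ) => ρ (i + 2)) (fun i => ArS.orac (i + 2))
  obtain ⟨s, hs, _, h2⟩ := I.dc (tT_iff_t3.1 h1) ρ hρ (by
    intro n x _
    by_cases hc : R ρ n
    · refine ⟨{0}, ?_, ?_⟩
      · exact I.arS (α := ℕ) (F := fun _ m => {m}) (ArS.single ArG.id) (fun _ => ∅) 0 ∅
          (fun _ => I.refl _)
      · simpa using hc
    · refine ⟨∅, I.refl _, ?_⟩
      simpa using hc) ∅ (I.refl _)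
  have h3 : {n | R ρ n} = {n | 0 ∈ s (n + 1)} := by
    ext n
    exact (h2 n).symm
  rw [h3]
  have h4 : Ar (fun ρ (n : ℕ) => 0 ∈ col (ρ 0) (n + 1)) :=
    Ar.gmemS (ArG.const 0) (ArS.col (ArS.orac 0) (ArG.prim Primrec.succ))
  have h5 := I.arith (ar_iff_arN.1 h4) (fun _ => join s) ∅ (fun _ => hs)
  simpa using h5

end Iface

end Pool.Agent.Helper44.CL
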