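import Pool.Agent.Helper44.PC.Prim
import Pool.Agent.Helper44.PC.Calc

/-!
# Part C: the basic relations of the combinatorics are arithmetical
-/

set_option autoImplicit false

noncomputable section

namespace Pool.Agent.Helper44.PC

open Helper99.TT Encodable
open Pool.Agent.Helper44.CL
open Pool.Agent.Helper98.T (upd isPath_iff_get)

universe u₁ u₂ u₃

variable {α : Type u₁} {β : Type u₂} {γ : Type u₃}
variable [Primcodable α] [Primcodable β] [Primcodable γ]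

instance instInhStep : Inhabited Step := ⟨⟨[], 0, 0⟩⟩

/-! ## Finite sets -/

theorem arFin_of_eq {f g : (ℕ → Set ℕ) → α → Finset β} (h : ArFin f)
    (e : ∀ ρ a, g ρ a = f ρ a) : ArFin g := by
  have : g = f := by
    funext ρ a
    exact e ρ a
  rw [this]; exact h

theorem ar_nonempty {S : (ℕ → Set ℕ) → α → Finset β} (hS : ArFin S) :
    Ar (fun ρ a => (S ρ a).Nonempty) := Ar.ex (R := fun ρ a b => b ∈ S ρ a) hS

theorem ar_subset {S T : (ℕ → Set ℕ) → α → Finset β} (hS : ArFin S) (hT : ArFin T) :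
    Ar (fun ρ a => S ρ a ⊆ T ρ a) := Ar.all (R := fun ρ a b => b ∈ S ρ a → b ∈ T ρ a) (Ar.imp hS hT)

theorem ar_finEq {S T : (ℕ → Set ℕ) → α → Finset β} (hS : ArFin S) (hT : ArFin T) :
    Ar (fun ρ a => S ρ a = T ρ a) :=
  (Ar.all (R := fun ρ a b => b ∈ S ρ a ↔ b ∈ T ρ a) (Ar.iff hS hT)).of_eq fun _ _ =>
    Finset.ext_iff

theorem arFin_single {f : (ℕ → Set ℕ) → α → β} (hf : ArG f) : ArFin (fun ρ a => {f ρ a}) :=
  (Ar.geq (ArG.prim pv0) hf.w).of_eq fun _ _ => Finset.mem_singleton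

theorem arFin_ite {R : (ℕ → Set ℕ) → α → Prop} [∀ ρ a, Decidable (R ρ a)] (hR : Ar R)
    {f g : (ℕ → Set ℕ) → α → Finset β} (hf : ArFin f) (hg : ArFin g) :
    ArFin (fun ρ a => if R ρ a then f ρ a else g ρ a) := by
  refine (Ar.ite (hR.w (β := β)) hf hg).of_eq fun ρ p => ?_
  by_cases h : R ρ p.1 <;> simp [h]

theorem ar_card_one {S : (ℕ → Set ℕ) → α → Finset β} (hS : ArFin S) :
    Ar (fun ρ a => (S ρ a).card = 1) := by
  refine (Ar.ex (R := fun ρ a b => ∀ c, c ∈ S ρ a ↔ c = b) (Ar.all ?_)).of_eq fun ρ a => ?_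
  · exact Ar.iff (Ar.gmemF (ArG.prim pv0) hS.w.w) (Ar.geq (ArG.prim pv0) (ArG.prim pv1))
  · rw [Finset.card_eq_one]
    refine exists_congr fun b => ?_
    rw [Finset.ext_iff]
    simp

theorem ar_one_lt_card {S : (ℕ → Set ℕ) → α → Finset β} (hS : ArFin S) :
    Ar (fun ρ a => 1 < (S ρ a).card) := by
  refine (Ar.exF (R := fun ρ a b => ∃ c ∈ S ρ a, b ≠ c) hS
    (Ar.exF (R := fun ρ (p : α × β) c => p.2 ≠ c) hS.w
      (Ar.gne (ArG.prim pv1) (ArG.prim pv0)))).of_eq fun ρ a => Finset.one_lt_card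

/-! ## Digits functions -/

theorem arG_digit {v : (ℕ → Set ℕ) → α → H} {i : (ℕ → Set ℕ) → α → ℕ} (hv : ArG v) (hi : ArG i) :
    ArG (fun ρ a => v ρ a (i ρ a)) := ArG.map₂ primrec_digit hv hi

/-- A digits function with an arithmetical graph. -/
theorem arG_H {v : (ℕ → Set ℕ) → α → H} (hv : ArG fun ρ (p : α × ℕ) => v ρ p.1 p.2) : ArG v := by
  refine (Ar.all (R := fun ρ (p : α × H) (i : ℕ) => v ρ p.1 i = p.2 i) ?_).of_eq
    fun ρ p => Finsupp.ext_iff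
  exact Ar.geq (ArG.comp hv ((Primrec.fst.comp Primrec.fst).pair Primrec.snd))
    (arG_digit (ArG.prim pv1) (ArG.prim pv0))

theorem arG_upd {e : (ℕ → Set ℕ) → α → H} {i c : (ℕ → Set ℕ) → α → ℕ} (he : ArG e) (hi : ArG i)
    (hc : ArG c) : ArG (fun ρ a => upd (e ρ a) (i ρ a) (c ρ a)) := by
  classical
  refine arG_H ((ArG.ite (R := fun ρ (p : α × ℕ) => p.2 = i ρ p.1)
    (f := fun ρ (p : α × ℕ) => c ρ p.1) (g := fun ρ (p : α × ℕ) => e ρ p.1 p.2)
    (Ar.geq (ArG.prim pv0) hi.w) hc.w (arG_digit he.w (ArG.prim pv0))).of_eq fun ρ p => ?_)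
  by_cases h : p.2 = i ρ p.1
  · rw [if_pos h, h]
    exact Pool.Agent.Helper98.T.upd_same _ _ _
  · rw [if_neg h]
    exact Pool.Agent.Helper98.T.upd_ne _ _ h

theorem ar_eqv {n : (ℕ → Set ℕ) → α → ℕ} {v w : (ℕ → Set ℕ) → α → H} (hn : ArG n) (hv : ArG v)
    (hw : ArG w) : Ar (fun ρ a => Eqv (n ρ a) (v ρ a) (w ρ a)) := by
  refine Ar.all (R := fun ρ a (i : ℕ) => n ρ a ≤ i → v ρ a i = w ρ a i) ?_
  exact Ar.imp (Ar.gle hn.w (ArG.prim pv0))
    (Ar.geq (arG_digit hv.w (ArG.prim pv0)) (arG_digit hw.w (ArG.prim pv0)))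

theorem ar_isPair {n : (ℕ → Set ℕ) → α → ℕ} {v w : (ℕ → Set ℕ) → α → H} (hn : ArG n) (hv : ArG v)
    (hw : ArG w) : Ar (fun ρ a => IsPair (n ρ a) (v ρ a) (w ρ a)) :=
  Ar.and (ar_eqv (ArG.map Primrec.succ hn) hv hw) (Ar.glt (arG_digit hv hn) (arG_digit hw hn))

/-! ## Largeness -/

theorem lg_iff_cert {i M : ℕ} {V : Finset H} {e : H} : Lg i M V e ↔
    ∃ S : List (ℕ × H), (i, e) ∈ S ∧ ∀ q ∈ S, (q.1 = 0 ∧ q.2 ∈ V) ∨ (q.1 ≠ 0 ∧
      ∃ C : List ℕ, C.Nodup ∧ M ≤ C.length ∧ ∀ c ∈ C, (q.1 - 1, upd q.2 (q.1 - 1) c) ∈ S) := by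
  classical
  constructor
  · intro h
    induction i generalizing e with
    | zero =>
      exact ⟨[(0, e)], by simp, fun q hq => by
        rw [List.mem_singleton] at hq
        subst hq
        exact Or.inl ⟨rfl, h⟩⟩
    | succ i ih =>
      obtain ⟨C, hC, h1⟩ := h
      have h2 : ∀ c, ∃ S : List (ℕ × H), c ∈ C → ((i, upd e i c) ∈ S ∧
          ∀ q ∈ S, (q.1 = 0 ∧ q.2 ∈ V) ∨ (q.1 ≠ 0 ∧ ∃ C : List ℕ, C.Nodup ∧ M ≤ C.length ∧
            ∀ c ∈ C, (q.1 - 1, upd q.2 (q.1 - 1) c) ∈ S)) := by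
        intro c
        by_cases hc : c ∈ C
        · obtain ⟨S, hS⟩ := ih (h1 c hc)
          exact ⟨S, fun _ => hS⟩
        · exact ⟨[], fun h => (hc h).elim⟩
      choose S hS using h2
      refine ⟨(i + 1, e) :: C.toList.flatMap S, List.mem_cons_self, fun q hq => ?_⟩
      rcases List.mem_cons.1 hq with rfl | hq
      · refine Or.inr ⟨Nat.succ_ne_zero i, C.toList, C.nodup_toList, by simpa using hC,
          fun c hc => ?_⟩
        have hc' : c ∈ C := Finset.mem_toList.1 hc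
        refine List.mem_cons_of_mem _ (List.mem_flatMap.2 ⟨c, hc, ?_⟩)
        exact (hS c hc').1
      · obtain ⟨c, hc, hq⟩ := List.mem_flatMap.1 hq
        have hc' : c ∈ C := Finset.mem_toList.1 hc
        rcases (hS c hc').2 q hq with h3 | ⟨h3, D, h4, h5, h6⟩
        · exact Or.inl h3
        · exact Or.inr ⟨h3, D, h4, h5, fun d hd => List.mem_cons_of_mem _
            (List.mem_flatMap.2 ⟨c, hc, h6 d hd⟩)⟩
  · rintro ⟨S, hS, h⟩
    have key : ∀ i e, (i, e) ∈ S → Lg i M V e := by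
      intro i
      induction i with
      | zero =>
        intro e he
        rcases h _ he with h1 | h1
        · exact h1.2
        · exact (h1.1 rfl).elim
      | succ i ih =>
        intro e he
        rcases h _ he with h1 | ⟨_, C, h2, h3, h4⟩
        · exact (Nat.succ_ne_zero i h1.1).elim
        · refine ⟨C.toFinset, ?_, fun c hc => ih _ (h4 c (List.mem_toFinset.1 hc))⟩
          rw [List.toFinset_card_of_nodup h2]
          exact h3
    exact key i e hS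

theorem ar_lg {i M : (ℕ → Set ℕ) → α → ℕ} {V : (ℕ → Set ℕ) → α → Finset H}
    {e : (ℕ → Set ℕ) → α → H} (hi : ArG i) (hM : ArG M) (hV : ArFin V) (he : ArG e) :
    Ar (fun ρ a => Lg (i ρ a) (M ρ a) (V ρ a) (e ρ a)) := by
  refine (Ar.ex (R := fun ρ a (S : List (ℕ × H)) => (i ρ a, e ρ a) ∈ S ∧ ∀ q ∈ S,
    (q.1 = 0 ∧ q.2 ∈ V ρ a) ∨ (q.1 ≠ 0 ∧ ∃ C : List ℕ, C.Nodup ∧ M ρ a ≤ C.length ∧
      ∀ c ∈ C, (q.1 - 1, upd q.2 (q.1 - 1) c) ∈ S)) ?_).of_eq fun ρ a => lg_iff_cert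
  refine Ar.and (Ar.memL (hi.w.pair he.w) (ArG.prim pv0)) (Ar.allL (ArG.prim pv0) (Ar.or ?_ ?_))
  · exact Ar.and (Ar.geq (ArG.prim (Primrec.fst.comp pv0)) (ArG.const 0))
      (Ar.gmemF (ArG.prim (Primrec.snd.comp pv0)) hV.w.w)
  · refine Ar.and (Ar.gne (ArG.prim (Primrec.fst.comp pv0)) (ArG.const 0)) (Ar.ex (Ar.and
      (Ar.nodup (ArG.prim pv0)) (Ar.and (Ar.gle hM.w.w.w (ArG.prim pv0).length)
        (Ar.allL (ArG.prim pv0) ?_))))
    refine Ar.memL (ArG.pair ?_ ?_) (ArG.prim pv3)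
    · exact ArG.sub (ArG.prim (Primrec.fst.comp pv2)) (ArG.const 1)
    · exact arG_upd (ArG.prim (Primrec.snd.comp pv2))
        (ArG.sub (ArG.prim (Primrec.fst.comp pv2)) (ArG.const 1)) (ArG.prim pv0)

theorem ar_large {M : (ℕ → Set ℕ) → α → ℕ} {V : (ℕ → Set ℕ) → α → Finset H} (hM : ArG M)
    (hV : ArFin V) : Ar (fun ρ a => Large (M ρ a) (V ρ a)) :=
  Ar.ex (R := fun ρ a e => Lg (M ρ a) (M ρ a) (V ρ a) e) (ar_lg hM.w hM.w hV.w (ArG.prim pv0))

/-! ## Families -/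

/-- Arithmetical families of finite sets. -/
def ArV (V : (ℕ → Set ℕ) → α → Fam) : Prop := ArFin fun ρ (p : α × ℕ) => V ρ p.1 p.2

theorem ArV.comp {V : (ℕ → Set ℕ) → β → Fam} (hV : ArV V) {f : α → β} (hf : Primrec f) :
    ArV (fun ρ a => V ρ (f a)) :=
  ArFin.comp (F := fun ρ (p : β × ℕ) => V ρ p.1 p.2) hV
    ((hf.comp Primrec.fst).pair Primrec.snd)

theorem ArV.w {V : (ℕ → Set ℕ) → α → Fam} (hV : ArV V) :
    ArV (fun ρ (p : α × β) => V ρ p.1) := hV.comp Primrec.fst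

theorem ArV.at {V : (ℕ → Set ℕ) → α → Fam} (hV : ArV V) {i : (ℕ → Set ℕ) → α → ℕ} (hi : ArG i) :
    ArFin (fun ρ a => V ρ a (i ρ a)) := by
  have h1 : Ar (fun ρ (p : α × H) => p.2 ∈ V ρ p.1 (i ρ p.1)) :=
    Ar.at (R := fun ρ (p : α × H) (j : ℕ) => p.2 ∈ V ρ p.1 j)
      (Ar.comp (f := fun q : (α × H) × ℕ => ((q.1.1, q.2), q.1.2)) hV
        (((Primrec.fst.comp Primrec.fst).pair Primrec.snd).pair pv1)) hi.w
  exact h1

theorem ar_isX {V : (ℕ → Set ℕ) → α → Fam} (hV : ArV V) : Ar (fun ρ a => IsX (V ρ a)) := by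
  refine Ar.and (Ar.all (ar_nonempty (hV.w.at (ArG.prim pv0)))) (Ar.all (Ar.all (Ar.ex ?_)))
  exact Ar.and (Ar.gle (ArG.prim pv1) (ArG.prim pv0))
    (ar_large (ArG.prim pv2) (hV.w.w.w.at (ArG.prim pv0)))

theorem ar_subX {k : (ℕ → Set ℕ) → α → ℕ} {V' V : (ℕ → Set ℕ) → α → Fam} (hk : ArG k)
    (hV' : ArV V') (hV : ArV V) : Ar (fun ρ a => SubX (k ρ a) (V' ρ a) (V ρ a)) :=
  Ar.all (Ar.imp (Ar.gle hk.w (ArG.prim pv0))
    (ar_subset (hV'.w.at (ArG.prim pv0)) (hV.w.at (ArG.prim pv0))))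

theorem ar_path {V : (ℕ → Set ℕ) → α → Fam} {k : (ℕ → Set ℕ) → α → ℕ}
    {u : (ℕ → Set ℕ) → α → List H} (hV : ArV V) (hk : ArG k) (hu : ArG u) :
    Ar (fun ρ a => Path (V ρ a) (k ρ a) (u ρ a)) := by
  refine (Ar.all (R := fun ρ a (i : ℕ) => i < (u ρ a).length →
    (u ρ a).getD i 0 ∈ V ρ a (k ρ a + i)) ?_).of_eq fun ρ a => ?_
  · exact Ar.imp (Ar.glt (ArG.prim pv0) hu.w.length)
      (Ar.gmemF (ArG.getD hu.w (ArG.prim pv0) 0) (hV.w.at (hk.w.add (ArG.prim pv0))))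
  · refine (isPath_iff_get (X := V ρ a) (u := u ρ a) (k := k ρ a)).trans ?_
    refine forall_congr' fun i => forall_congr' fun hi => ?_
    rw [List.getD_eq_getElem _ _ hi]

/-- Points: functions from the natural numbers. -/
theorem ar_inX {V : (ℕ → Set ℕ) → α → Fam} {k : (ℕ → Set ℕ) → α → ℕ}
    {A : (ℕ → Set ℕ) → α → ℕ → H} (hV : ArV V) (hk : ArG k)
    (hA : ArG fun ρ (p : α × ℕ) => A ρ p.1 p.2) :
    Ar (fun ρ a => InX (V ρ a) (k ρ a) (A ρ a)) :=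
  Ar.all (Ar.imp (Ar.gle hk.w (ArG.prim pv0)) (Ar.gmemF hA (hV.w.at (ArG.prim pv0))))

/-! ## Steps and nodes -/

theorem arG_u {s : (ℕ → Set ℕ) → α → Step} (hs : ArG s) : ArG (fun ρ a => (s ρ a).u) :=
  ArG.map primrec_u hs
theorem arG_v {s : (ℕ → Set ℕ) → α → Step} (hs : ArG s) : ArG (fun ρ a => (s ρ a).v) :=
  ArG.map primrec_v hs
theorem arG_w {s : (ℕ → Set ℕ) → α → Step} (hs : ArG s) : ArG (fun ρ a => (s ρ a).w) :=
  ArG.map primrec_w hs
theorem arG_size {s : (ℕ → Set ℕ) → α → Step} (hs : ArG s) : ArG (fun ρ a => (s ρ a).size) :=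
  ArG.map primrec_size hs
theorem arG_plc {x : (ℕ → Set ℕ) → α → Node} (hx : ArG x) : ArG (fun ρ a => plc (x ρ a)) :=
  ArG.map primrec_plc hx

theorem arFin_sent {s : (ℕ → Set ℕ) → α → Step} {i : (ℕ → Set ℕ) → α → ℕ} (hs : ArG s)
    (hi : ArG i) : ArFin (fun ρ a => (s ρ a).ent (i ρ a)) := by
  refine arFin_ite (Ar.glt hi (arG_u hs).length) (arFin_single (ArG.getD (arG_u hs) hi 0)) ?_
  refine (Ar.or (Ar.geq (ArG.prim pv0) (arG_v hs).w) (Ar.geq (ArG.prim pv0) (arG_w hs).w)).of_eq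
    fun ρ p => ?_
  simp

theorem mem_ent_iff {h : H} {x : Node} {p : ℕ} : h ∈ ent x p ↔ ∃ (k : ℕ) (s : Step),
    x[k]? = some s ∧ plc (x.take k) ≤ p ∧ p < plc (x.take k) + s.size ∧
      h ∈ s.ent (p - plc (x.take k)) := by
  induction x generalizing p with
  | nil => simp [ent]
  | cons s x ih =>
    rw [ent]
    split_ifs with hp
    · constructor
      · intro hh
        exact ⟨0, s, by simp, by simp [plc], by simpa [plc] using hp, by simpa [plc] using hh⟩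
      · rintro ⟨k, s', h1, h2, h3, h4⟩
        cases k with
        | zero =>
          simp only [List.getElem?_cons_zero, Option.some.injEq] at h1
          subst h1
          simpa [plc] using h4
        | succ k =>
          simp only [List.take_succ_cons, plc, List.map_cons, List.sum_cons] at h2
          omega
    · rw [ih]
      constructor
      · rintro ⟨k, s', h1, h2, h3, h4⟩
        refine ⟨k + 1, s', by simpa using h1, ?_, ?_, ?_⟩
        · simp only [List.take_succ_cons, plc, List.map_cons, List.sum_cons] at h2 ⊢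
          omega
        · simp only [List.take_succ_cons, plc, List.map_cons, List.sum_cons] at h3 ⊢
          omega
        · simp only [List.take_succ_cons, plc, List.map_cons, List.sum_cons] at h4 ⊢
          rwa [← Nat.sub_sub]
      · rintro ⟨k, s', h1, h2, h3, h4⟩
        cases k with
        | zero =>
          simp only [List.getElem?_cons_zero, Option.some.injEq] at h1
          subst h1
          simp only [List.take_zero, plc, List.map_nil, List.sum_nil] at h3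
          omega
        | succ k =>
          simp only [List.take_succ_cons, plc, List.map_cons, List.sum_cons] at h2 h3 h4
          refine ⟨k, s', by simpa using h1, ?_, ?_, ?_⟩
          · simp only [plc]; omega
          · simp only [plc]; omega
          · simp only [plc]
            rwa [Nat.sub_sub]

theorem arFin_ent {x : (ℕ → Set ℕ) → α → Node} {p : (ℕ → Set ℕ) → α → ℕ} (hx : ArG x)
    (hp : ArG p) : ArFin (fun ρ a => ent (x ρ a) (p ρ a)) := by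
  have hT : ArG (fun ρ (q : ((α × H) × ℕ) × Step) => plc ((x ρ q.1.1.1).take q.1.2)) :=
    arG_plc (ArG.map₂ (F := fun (k : ℕ) (l : Node) => l.take k) Primrec.list_take (ArG.prim pv1)
      hx.w.w.w)
  refine (Ar.ex (R := fun ρ (q : α × H) (k : ℕ) => ∃ s : Step, (x ρ q.1)[k]? = some s ∧
    plc ((x ρ q.1).take k) ≤ p ρ q.1 ∧ p ρ q.1 < plc ((x ρ q.1).take k) + s.size ∧
      q.2 ∈ s.ent (p ρ q.1 - plc ((x ρ q.1).take k))) (Ar.ex ?_)).of_eq fun ρ q => mem_ent_iff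
  refine Ar.and (Ar.geq (ArG.get? hx.w.w.w (ArG.prim pv1)) (ArG.prim pv0).some) (Ar.and
    (Ar.gle hT hp.w.w.w) (Ar.and (Ar.glt hp.w.w.w (hT.add (arG_size (ArG.prim pv0)))) ?_))
  exact Ar.gmemF (ArG.prim pv2) (arFin_sent (ArG.prim pv0) (hp.w.w.w.sub hT))

theorem ar_idx {x : (ℕ → Set ℕ) → α → Node} (hx : ArG x) : Ar (fun ρ a => Idx (x ρ a)) :=
  Ar.all (Ar.all (Ar.imp (Ar.geq (ArG.get? hx.w.w (ArG.prim pv1)) (ArG.prim pv0).some)
    (ar_isPair (ArG.prim pv1) (arG_v (ArG.prim pv0)) (arG_w (ArG.prim pv0)))))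

theorem ar_sstep {V : (ℕ → Set ℕ) → α → Fam} {x : (ℕ → Set ℕ) → α → Node}
    {s : (ℕ → Set ℕ) → α → Step} (hV : ArV V) (hx : ArG x) (hs : ArG s) :
    Ar (fun ρ a => SStep (V ρ a) (x ρ a) (s ρ a)) := by
  have hp : ArG (fun ρ a => plc (x ρ a) + (s ρ a).u.length) := (arG_plc hx).add (arG_u hs).length
  exact Ar.and (ar_path hV (arG_plc hx) (arG_u hs)) (Ar.and (Ar.gmemF (arG_v hs) (hV.at hp))
    (Ar.and (Ar.gmemF (arG_w hs) (hV.at hp)) (ar_isPair hx.length (arG_v hs) (arG_w hs))))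

theorem ar_gapExt {V : (ℕ → Set ℕ) → α → Fam} {x y : (ℕ → Set ℕ) → α → Node} (hV : ArV V)
    (hx : ArG x) (hy : ArG y) : Ar (fun ρ a => GapExt (V ρ a) (x ρ a) (y ρ a)) := by
  refine Ar.and (Ar.isPrefix hx hy) (Ar.all (Ar.imp (Ar.gle (arG_plc hx.w) (ArG.prim pv0))
    (Ar.imp (Ar.glt (ArG.prim pv0) (arG_plc hy.w)) (Ar.ex (Ar.and ?_ ?_)))))
  · exact ar_finEq (hV.w.w.at (ArG.prim pv1)) (arFin_single (ArG.prim pv0))
  · exact Ar.gmemF (ArG.prim pv0) (arFin_ent hy.w.w (ArG.prim pv1))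

theorem ar_isPiece {x : (ℕ → Set ℕ) → α → Node} {a : (ℕ → Set ℕ) → α → List H} (hx : ArG x)
    (ha : ArG a) : Ar (fun ρ i => IsPiece (x ρ i) (a ρ i)) :=
  Ar.and (Ar.geq ha.length (arG_plc hx)) (Ar.all (Ar.imp (Ar.glt (ArG.prim pv0) (arG_plc hx.w))
    (Ar.gmemF (ArG.getD ha.w (ArG.prim pv0) 0) (arFin_ent hx.w (ArG.prim pv0)))))

theorem ar_fit {V V' : (ℕ → Set ℕ) → α → Fam} {k : (ℕ → Set ℕ) → α → ℕ}
    {x : (ℕ → Set ℕ) → α → Node} (hV : ArV V) (hV' : ArV V') (hk : ArG k) (hx : ArG x) :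
    Ar (fun ρ a => Fit (V ρ a) (V' ρ a) (k ρ a) (x ρ a)) := by
  refine Ar.all (Ar.imp (Ar.gle hk.w (ArG.prim pv0)) (Ar.imp (Ar.glt (ArG.prim pv0)
    (arG_plc hx.w)) (Ar.allF (arFin_ent hx.w (ArG.prim pv0)) ?_)))
  exact Ar.imp (Ar.gmemF (ArG.prim pv0) (hV.w.w.at (ArG.prim pv1)))
    (Ar.gmemF (ArG.prim pv0) (hV'.w.w.at (ArG.prim pv1)))

end Pool.Agent.Helper44.PC
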