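import Pool.Agent.Helper44.PC.Read
import Pool.Agent.Helper99.TT.Graft

/-!
# Part C: the class of the constructible conditions, and the two posets
-/

set_option autoImplicit false

noncomputable section

namespace Pool.Agent.Helper44.PC

open Helper99.TT Encodable
open Pool.Agent.Helper44.CL

universe u₁ u₂ u₃

variable {α : Type u₁} {β : Type u₂} {γ : Type u₃}
variable [Primcodable α] [Primcodable β] [Primcodable γ]

/-! ## Finite changes of a family -/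

open Classical in
/-- The family `V` changed at finitely many places. -/
def modV (V : Fam) (l : List (ℕ × List H)) : Fam := fun p =>
  if ∃ W, (p, W) ∈ l then ((l.filter fun r => r.1 = p).flatMap fun r => r.2).toFinset else V p

theorem mem_modV {V : Fam} {l : List (ℕ × List H)} {p : ℕ} {h : H} : h ∈ modV V l p ↔
    (∃ W, (p, W) ∈ l ∧ h ∈ W) ∨ ((¬ ∃ W, (p, W) ∈ l) ∧ h ∈ V p) := by
  classical
  unfold modV
  split_ifs with hc
  · simp only [List.mem_toFinset, List.mem_flatMap, List.mem_filter, decide_eq_true_eq]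
    constructor
    · rintro ⟨⟨p', W⟩, ⟨h1, h2⟩, h3⟩
      simp only at h2 h3
      subst h2
      exact Or.inl ⟨W, h1, h3⟩
    · rintro (⟨W, h1, h2⟩ | ⟨h1, _⟩)
      · exact ⟨(p, W), ⟨h1, rfl⟩, h2⟩
      · exact (h1 hc).elim
  · constructor
    · intro h1
      exact Or.inr ⟨hc, h1⟩
    · rintro (⟨W, h1, _⟩ | ⟨_, h1⟩)
      · exact (hc ⟨W, h1⟩).elim
      · exact h1

theorem exists_modV {V V' : Fam} (hf : {p | V' p ≠ V p}.Finite) : ∃ l, modV V l = V' := by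
  classical
  refine ⟨hf.toFinset.toList.map fun p => (p, (V' p).toList), ?_⟩
  funext p
  ext h
  rw [mem_modV]
  have h1 : ∀ W, (p, W) ∈ hf.toFinset.toList.map (fun p => (p, (V' p).toList)) ↔
      V' p ≠ V p ∧ W = (V' p).toList := by
    intro W
    simp only [List.mem_map, Finset.mem_toList, Set.Finite.mem_toFinset, Set.mem_ofPred_eq,
      Prod.mk.injEq]
    constructor
    · rintro ⟨p', h1, rfl, h2⟩
      exact ⟨h1, h2.symm⟩
    · rintro ⟨h1, h2⟩
      exact ⟨p, h1, rfl, h2.symm⟩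
  simp only [h1]
  by_cases hp : V' p = V p
  · simp [hp]
  · simp [hp]

theorem arV_modV {V : (ℕ → Set ℕ) → α → Fam} (hV : ArV V)
    {l : (ℕ → Set ℕ) → α → List (ℕ × List H)} (hl : ArG l) :
    ArV (fun ρ a => modV (V ρ a) (l ρ a)) := by
  refine Ar.of_eq (R := fun ρ (q : (α × ℕ) × H) => (∃ W, (q.1.2, W) ∈ l ρ q.1.1 ∧ q.2 ∈ W) ∨
    ((¬ ∃ W, (q.1.2, W) ∈ l ρ q.1.1) ∧ q.2 ∈ V ρ q.1.1 q.1.2)) ?_ (fun ρ q => mem_modV)
  refine Ar.or (Ar.ex (Ar.and ?_ ?_)) (Ar.and (Ar.not (Ar.ex ?_)) hV)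
  · exact Ar.memL ((ArG.prim pv2).pair (ArG.prim pv0)) hl.w.w.w
  · exact Ar.memL (ArG.prim pv1) (ArG.prim pv0)
  · exact Ar.memL ((ArG.prim pv2).pair (ArG.prim pv0)) hl.w.w.w

/-! ## The class of the constructible conditions -/

variable {cle : Set ℕ → Set ℕ → Prop} {L2 : Set (Set (Set ℕ))}

/-- The good conditions which are in `L`. -/
def LC (cle : Set ℕ → Set ℕ → Prop) : Set Cond := {q | Good q ∧ cle (enc [] q) ∅}

theorem cle_of_arC (I : Iface cle L2) {Q : (ℕ → Set ℕ) → α → Cond} (hQ : ArC Q)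
    (ρ : ℕ → Set ℕ) (i : α) (a : List H) (z : Set ℕ) (hρ : ∀ i, cle (ρ i) z) :
    cle (enc a (Q ρ i)) z :=
  I.arS (arS_enc (ArG.const a) hQ) ρ i z hρ

theorem cle_enc (I : Iface cle L2) {a : List H} (b : List H) {q : Cond} {z : Set ℕ}
    (h : cle (enc a q) z) : cle (enc b q) z := by
  have h1 := cle_of_arC I (arC_decQ (α := ℕ) (ArS.orac 0)) (fun _ => enc a q) 0 b z (fun _ => h)
  simpa using h1

theorem cle_enc_iff (I : Iface cle L2) {a : List H} {q : Cond} {z : Set ℕ} :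
    cle (enc a q) z ↔ cle (enc [] q) z := ⟨cle_enc I [], cle_enc I a⟩

theorem closed_LC (I : Iface cle L2) : Closed (LC cle) where
  good := fun q hq => hq.1
  cone := by
    intro q hq x hx
    refine ⟨closed_good.cone q hq.1 x hx, ?_⟩
    have h1 := cle_of_arC I (arC_cone (arC_decQ (α := Node) (ArS.orac 0)) ArG.id)
      (fun _ => enc [] q) x [] ∅ (fun _ => hq.2)
    simpa using h1
  restr := by
    intro q hq V' h1 h2 h3
    refine ⟨closed_good.restr q hq.1 V' h1 h2 h3, ?_⟩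
    obtain ⟨l, rfl⟩ := exists_modV h3
    have h4 := arC_decQ (α := List (ℕ × List H)) (ArS.orac 0)
    have h5 := cle_of_arC I (arC_restr h4 (arV_modV h4.V ArG.id))
      (fun _ => enc [] q) l [] ∅ (fun _ => hq.2)
    simpa using h5
  graft := by
    intro q hq x hx hxt y q' hq' hle
    refine ⟨closed_good.graft q hq.1 x hx hxt y q' hq'.1 hle, ?_⟩
    have h4 := arC_decQ (α := Node × List H) (ArS.orac 0)
    have h5 := arC_decQ (α := Node × List H) (ArS.orac 1)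
    have h6 := cle_of_arC I (arC_graft h4 (ArG.prim Primrec.fst) (ArG.prim Primrec.snd) h5)
      (cons (enc [] q) fun _ => enc [] q') (x, y) [] ∅ (I.cons_le hq.2 fun _ => hq'.2)
    simpa using h6

/-! ## The posets -/

/-- Relations with an arithmetical definition. -/
theorem relIn_of_ar (I : Iface cle L2) {P : Set (Set ℕ)} (hP : P ∈ L2)
    {le : Set ℕ → Set ℕ → Prop} (hle : Ar fun ρ (_ : ℕ) => le (ρ 0) (ρ 1)) :
    RelIn L2 P le := by
  have h0 : ∀ i : ℕ, ArS (fun ρ (_ : ℕ) => col (ρ 0) i) := fun i =>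
    ArS.col (ArS.orac 0) (ArG.const i)
  have h1 : Ar (fun ρ (_ : ℕ) => le (col (ρ 0) 0) (col (ρ 0) 1)) :=
    Ar.subst (F := fun i ρ (_ : ℕ) => col (ρ 0) i) hle h0 Primrec.id
  have h2 : TT {x | cle x ∅} L2 (fun ρ (_ : ℕ) => col (ρ 0) 0 ∈ P ∧ col (ρ 0) 1 ∈ P ∧
      le (col (ρ 0) 0) (col (ρ 0) 1) ∧ ρ 0 = jn (col (ρ 0) 0) (col (ρ 0) 1)) := by
    refine TT.and (TT.par hP (h0 0)) (TT.and (TT.par hP (h0 1)) (TT.ar (Ar.and h1 ?_)))
    refine (Ar.all (R := fun ρ (_ : ℕ) (m : ℕ) => m ∈ ρ 0 ↔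
      m ∈ jn (col (ρ 0) 0) (col (ρ 0) 1)) ?_).of_eq fun ρ _ => Set.ext_iff
    exact Ar.iff (Ar.orac 0 Primrec.snd) (Ar.gmemS (ArG.prim pv0)
      (ArS.w (ArS.jn (h0 0) (h0 1))))
  have h3 := I.comprT h2 (fun _ => ∅) 0 (fun _ => I.refl _)
  refine Eq.mp ?_ h3
  congr 1
  ext x
  simp only [Set.mem_ofPred_eq, cons_zero]
  constructor
  · rintro ⟨_, h4, h5, h6, h7⟩
    exact ⟨_, h4, _, h5, h6, h7⟩
  · rintro ⟨p, hp, q, hq, h4, rfl⟩
    simp only [col_jn_zero, col_jn_one]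
    exact ⟨I.jn_le (I.L2_sub _ hP _ hp) (I.L2_sub _ hP _ hq), hp, hq, h4, trivial⟩

/-- The poset of the conditions. -/
def PP (cle : Set ℕ → Set ℕ → Prop) : Set (Set ℕ) :=
  {x | cle x ∅ ∧ Good (decQ x) ∧ IsPiece (decQ x).t (decA x) ∧ enc (decA x) (decQ x) = x}

/-- The order of the conditions. -/
def leP (x y : Set ℕ) : Prop := LeP (decA x) (decQ x) (decA y) (decQ y)

theorem mem_PP {x : Set ℕ} : x ∈ PP cle ↔ ∃ a q, Good q ∧ IsPiece q.t a ∧ cle x ∅ ∧
    x = enc a q := by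
  constructor
  · rintro ⟨h1, h2, h3, h4⟩
    exact ⟨_, _, h2, h3, h1, h4.symm⟩
  · rintro ⟨a, q, h1, h2, h3, rfl⟩
    exact ⟨h3, by simpa using h1, by simpa using h2, by simp⟩

theorem enc_mem_PP {a : List H} {q : Cond} : enc a q ∈ PP cle ↔ cle (enc a q) ∅ ∧ Good q ∧
    IsPiece q.t a := by
  simp [PP]

@[simp] theorem leP_enc {a a' : List H} {q q' : Cond} :
    leP (enc a' q') (enc a q) ↔ LeP a' q' a q := by
  simp [leP]

theorem ar_setEq {X Y : (ℕ → Set ℕ) → α → Set ℕ} (hX : ArS X) (hY : ArS Y) :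
    Ar (fun ρ a => X ρ a = Y ρ a) :=
  (Ar.all (R := fun ρ a (m : ℕ) => m ∈ X ρ a ↔ m ∈ Y ρ a) (Ar.iff hX hY)).of_eq
    fun _ _ => Set.ext_iff

theorem PP_mem (I : Iface cle L2) : PP cle ∈ L2 := by
  have h1 : TT {x | cle x ∅} L2 (fun ρ (_ : ℕ) => Good (decQ (ρ 0)) ∧
      IsPiece (decQ (ρ 0)).t (decA (ρ 0)) ∧ enc (decA (ρ 0)) (decQ (ρ 0)) = ρ 0) := by
    have hq := arC_decQ (α := ℕ) (ArS.orac 0)
    have ha := arG_decA (α := ℕ) (ArS.orac 0)
    exact TT.ar (Ar.and (ar_good hq) (Ar.and (ar_isPiece hq.t ha)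
      (ar_setEq (arS_enc ha hq) (ArS.orac 0))))
  exact I.comprT h1 (fun _ => ∅) 0 (fun _ => I.refl _)

theorem leP_relIn (I : Iface cle L2) : RelIn L2 (PP cle) leP :=
  relIn_of_ar I (PP_mem I) (ar_leP (arG_decA (ArS.orac 0)) (arC_decQ (ArS.orac 0))
    (arG_decA (ArS.orac 1)) (arC_decQ (ArS.orac 1)))

/-- The condition with the family `V`, for the second poset. -/
def fcond (V : Fam) : Cond := ⟨[], V, ∅⟩

/-- The real which codes `(a, V)`. -/
def encY (a : List H) (V : Fam) : Set ℕ := enc a (fcond V)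

/-- The second poset. -/
def YY (cle : Set ℕ → Set ℕ → Prop) : Set (Set ℕ) :=
  {x | cle x ∅ ∧ IsX (decQ x).V ∧ encY (decA x) (decQ x).V = x}

/-- The order of the second poset. -/
def LeY (a' : List H) (V' : Fam) (a : List H) (V : Fam) : Prop :=
  ∃ y, a' = a ++ y ∧ Path V a.length y ∧ SubX a'.length V' V

/-- The order of the second poset, for codes. -/
def leY (x y : Set ℕ) : Prop := LeY (decA x) (decQ x).V (decA y) (decQ y).V

@[simp] theorem decA_encY (a : List H) (V : Fam) : decA (encY a V) = a := by simp [encY]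

@[simp] theorem decQ_encY (a : List H) (V : Fam) : (decQ (encY a V)).V = V := by
  simp [encY, fcond]

theorem mem_YY {x : Set ℕ} : x ∈ YY cle ↔ ∃ a V, IsX V ∧ cle x ∅ ∧ x = encY a V := by
  constructor
  · rintro ⟨h1, h2, h3⟩
    exact ⟨_, _, h2, h1, h3.symm⟩
  · rintro ⟨a, V, h1, h2, rfl⟩
    exact ⟨h2, by simpa using h1, by simp⟩

theorem encY_mem_YY {a : List H} {V : Fam} : encY a V ∈ YY cle ↔ cle (encY a V) ∅ ∧ IsX V := by
  simp [YY]

@[simp] theorem leY_enc {a a' : List H} {V V' : Fam} :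
    leY (encY a' V') (encY a V) ↔ LeY a' V' a V := by
  simp [leY]

theorem ar_leY {a a' : (ℕ → Set ℕ) → α → List H} {V V' : (ℕ → Set ℕ) → α → Fam} (ha' : ArG a')
    (hV' : ArV V') (ha : ArG a) (hV : ArV V) :
    Ar (fun ρ i => LeY (a' ρ i) (V' ρ i) (a ρ i) (V ρ i)) :=
  Ar.ex (Ar.and (Ar.geq ha'.w (ha.w.app_list (ArG.prim pv0))) (Ar.and
    (ar_path hV.w ha.w.length (ArG.prim pv0)) (ar_subX ha'.w.length hV'.w hV.w)))

theorem arC_fcond {V : (ℕ → Set ℕ) → α → Fam} (hV : ArV V) : ArC (fun ρ a => fcond (V ρ a)) :=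
  ⟨ArG.const _, hV, (Ar.const (α := α × Node) False).of_eq fun _ _ => Iff.rfl⟩

theorem arS_encY {a : (ℕ → Set ℕ) → α → List H} {V : (ℕ → Set ℕ) → α → Fam} (ha : ArG a)
    (hV : ArV V) : ArS (fun ρ i => encY (a ρ i) (V ρ i)) := arS_enc ha (arC_fcond hV)

theorem YY_mem (I : Iface cle L2) : YY cle ∈ L2 := by
  have h1 : TT {x | cle x ∅} L2 (fun ρ (_ : ℕ) => IsX (decQ (ρ 0)).V ∧
      encY (decA (ρ 0)) (decQ (ρ 0)).V = ρ 0) := by
    have hq := arC_decQ (α := ℕ) (ArS.orac 0)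
    have ha := arG_decA (α := ℕ) (ArS.orac 0)
    exact TT.ar (Ar.and (ar_isX hq.V) (ar_setEq (arS_encY ha hq.V) (ArS.orac 0)))
  exact I.comprT h1 (fun _ => ∅) 0 (fun _ => I.refl _)

theorem leY_relIn (I : Iface cle L2) : RelIn L2 (YY cle) leY :=
  relIn_of_ar I (YY_mem I) (ar_leY (arG_decA (ArS.orac 0)) (arC_decQ (ArS.orac 0)).V
    (arG_decA (ArS.orac 1)) (arC_decQ (ArS.orac 1)).V)

end Pool.Agent.Helper44.PC
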