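import Pool.Agent.Helper44.PC.Basic

/-!
# Part C: conditions are coded by reals; the relations between conditions are arithmetical
-/

set_option autoImplicit false

noncomputable section

namespace Pool.Agent.Helper44.PC

open Helper99.TT Encodable
open Pool.Agent.Helper44.CL

universe u₁ u₂ u₃

variable {α : Type u₁} {β : Type u₂} {γ : Type u₃}
variable [Primcodable α] [Primcodable β] [Primcodable γ]

/-- Condition-valued arithmetical functions. -/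
structure ArC (Q : (ℕ → Set ℕ) → α → Cond) : Prop where
  t : ArG fun ρ a => (Q ρ a).t
  V : ArV fun ρ a => (Q ρ a).V
  F : ArSet fun ρ a => (Q ρ a).F

theorem ArC.comp {Q : (ℕ → Set ℕ) → β → Cond} (hQ : ArC Q) {f : α → β} (hf : Primrec f) :
    ArC (fun ρ a => Q ρ (f a)) :=
  ⟨hQ.t.comp hf, hQ.V.comp hf, hQ.F.comp hf⟩

theorem ArC.w {Q : (ℕ → Set ℕ) → α → Cond} (hQ : ArC Q) :
    ArC (fun ρ (p : α × β) => Q ρ p.1) := hQ.comp Primrec.fst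

theorem ArC.of_eq {f g : (ℕ → Set ℕ) → α → Cond} (h : ArC f) (e : ∀ ρ a, g ρ a = f ρ a) :
    ArC g := by
  have : g = f := by
    funext ρ a
    exact e ρ a
  rw [this]; exact h

/-- substitution of an arithmetical parameter -/
theorem ArC.at {Q : (ℕ → Set ℕ) → α → β → Cond} (hQ : ArC fun ρ (p : α × β) => Q ρ p.1 p.2)
    {f : (ℕ → Set ℕ) → α → β} (hf : ArG f) : ArC (fun ρ a => Q ρ a (f ρ a)) := by
  refine ⟨ArG.at (F := fun ρ a b => (Q ρ a b).t) hQ.t hf, ?_, ?_⟩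
  · have h1 : Ar (fun ρ (p : (α × ℕ) × H) => p.2 ∈ (Q ρ p.1.1 (f ρ p.1.1)).V p.1.2) :=
      Ar.at (R := fun ρ (p : (α × ℕ) × H) b => p.2 ∈ (Q ρ p.1.1 b).V p.1.2)
        (Ar.comp (f := fun q : ((α × ℕ) × H) × β => (((q.1.1.1, q.2), q.1.1.2), q.1.2)) hQ.V
          ((((Primrec.fst.comp (Primrec.fst.comp Primrec.fst)).pair Primrec.snd).pair
            pv2).pair pv1)) hf.w.w
    exact h1
  · have h1 : Ar (fun ρ (p : α × Node) => p.2 ∈ (Q ρ p.1 (f ρ p.1)).F) :=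
      Ar.at (R := fun ρ (p : α × Node) b => p.2 ∈ (Q ρ p.1 b).F)
        (Ar.comp (f := fun q : (α × Node) × β => ((q.1.1, q.2), q.1.2)) hQ.F
          (((Primrec.fst.comp Primrec.fst).pair Primrec.snd).pair pv1)) hf.w
    exact h1

variable {Q Q' : (ℕ → Set ℕ) → α → Cond}

/-! ## Good conditions -/

theorem good_iff (q : Cond) : Good q ↔ IsX q.V ∧ q.t ∈ q.F ∧ (∀ x ∈ q.F, q.t <+: x) ∧
    (∀ x ∈ q.F, Idx x) ∧
    (∀ x ∈ q.F, ∀ s, SStep q.V x s →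
      ∃ y ∈ q.F, GapExt q.V (x ++ [s]) y ∧ ∀ z ∈ q.F, (x ++ [s]) <+: z → y <+: z) ∧
    (∀ y ∈ q.F, y ≠ q.t →
      ∃ x ∈ q.F, ∃ s, SStep q.V x s ∧ GapExt q.V (x ++ [s]) y ∧
        ∀ z ∈ q.F, z <+: y → z = y ∨ z <+: x) :=
  ⟨fun h => ⟨h.isX, h.stem, h.above, h.idx, h.succ, h.pred⟩,
    fun ⟨h1, h2, h3, h4, h5, h6⟩ => ⟨h1, h2, h3, h4, h5, h6⟩⟩

theorem ar_good (hQ : ArC Q) : Ar (fun ρ a => Good (Q ρ a)) := by
  refine Ar.of_eq ?_ fun ρ a => good_iff (Q ρ a)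
  refine Ar.and (ar_isX hQ.V) (Ar.and (Ar.gmem hQ.t hQ.F) (Ar.and ?_ (Ar.and ?_ (Ar.and ?_ ?_))))
  · exact Ar.allM hQ.F (Ar.isPrefix hQ.t.w (ArG.prim pv0))
  · exact Ar.allM hQ.F (ar_idx (ArG.prim pv0))
  · refine Ar.allM hQ.F (Ar.all (Ar.imp (ar_sstep hQ.V.w.w (ArG.prim pv1) (ArG.prim pv0)) ?_))
    refine Ar.exM hQ.F.w.w (Ar.and ?_ (Ar.allM hQ.F.w.w.w (Ar.imp ?_ ?_)))
    · exact ar_gapExt hQ.V.w.w.w (ArG.concat (ArG.prim pv2) (ArG.prim pv1)) (ArG.prim pv0)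
    · exact Ar.isPrefix (ArG.concat (ArG.prim pv3) (ArG.prim pv2)) (ArG.prim pv0)
    · exact Ar.isPrefix (ArG.prim pv1) (ArG.prim pv0)
  · refine Ar.allM hQ.F (Ar.imp (Ar.gne (ArG.prim pv0) hQ.t.w) ?_)
    refine Ar.exM hQ.F.w (Ar.ex (Ar.and ?_ (Ar.and ?_ (Ar.allM hQ.F.w.w.w (Ar.imp ?_
      (Ar.or ?_ ?_))))))
    · exact ar_sstep hQ.V.w.w.w (ArG.prim pv1) (ArG.prim pv0)
    · exact ar_gapExt hQ.V.w.w.w (ArG.concat (ArG.prim pv1) (ArG.prim pv0)) (ArG.prim pv2)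
    · exact Ar.isPrefix (ArG.prim pv0) (ArG.prim pv3)
    · exact Ar.geq (ArG.prim pv0) (ArG.prim pv3)
    · exact Ar.isPrefix (ArG.prim pv0) (ArG.prim pv2)

/-! ## Operations -/

theorem arC_restr (hQ : ArC Q) {V' : (ℕ → Set ℕ) → α → Fam} (hV' : ArV V') :
    ArC (fun ρ a => (Q ρ a).restr (V' ρ a)) :=
  ⟨hQ.t, hV', Ar.and hQ.F (ar_fit hQ.V.w hV'.w (arG_plc hQ.t).w (ArG.prim pv0))⟩

theorem arC_cone (hQ : ArC Q) {x : (ℕ → Set ℕ) → α → Node} (hx : ArG x) :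
    ArC (fun ρ a => (Q ρ a).cone (x ρ a)) :=
  ⟨hx, hQ.V, Ar.and hQ.F (Ar.isPrefix hx.w (ArG.prim pv0))⟩

theorem arV_graft (hQ : ArC Q) {x : (ℕ → Set ℕ) → α → Node} (hx : ArG x)
    {y : (ℕ → Set ℕ) → α → List H} (hy : ArG y) (hQ' : ArC Q') :
    ArV (fun ρ a => graftV (Q ρ a) (x ρ a) (y ρ a) (Q' ρ a)) := by
  refine arFin_ite (Ar.glt (ArG.prim pv0) (arG_plc hx).w) (hQ.V.w.at (ArG.prim pv0))
    (arFin_ite (Ar.glt (ArG.prim pv0) (arG_plc hQ'.t).w) (arFin_single ?_)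
      (hQ'.V.w.at (ArG.prim pv0)))
  exact ArG.getD hy.w ((ArG.prim pv0).sub (arG_plc hx).w) 0

theorem arC_graft (hQ : ArC Q) {x : (ℕ → Set ℕ) → α → Node} (hx : ArG x)
    {y : (ℕ → Set ℕ) → α → List H} (hy : ArG y) (hQ' : ArC Q') :
    ArC (fun ρ a => (Q ρ a).graft (x ρ a) (y ρ a) (Q' ρ a)) := by
  have hV := arV_graft hQ hx hy hQ'
  refine ⟨hQ.t, hV, ?_⟩
  exact Ar.or (Ar.and hQ.F (Ar.and (ar_fit hQ.V.w hV.w (arG_plc hQ.t).w (ArG.prim pv0))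
    (Ar.isPrefix hx.w (ArG.prim pv0)).not)) hQ'.F

/-! ## Orders -/

variable {q q' : (ℕ → Set ℕ) → α → Cond}

theorem ar_le {y : (ℕ → Set ℕ) → α → List H} (hy : ArG y) (hq' : ArC q') (hq : ArC q) :
    Ar (fun ρ a => Le (y ρ a) (q' ρ a) (q ρ a)) := by
  refine Ar.and (Ar.gmem hq'.t hq.F) (Ar.and (Ar.geq ((arG_plc hq.t).add hy.length)
    (arG_plc hq'.t)) (Ar.and (Ar.all (Ar.imp (Ar.glt (ArG.prim pv0) hy.w.length) (Ar.and ?_ ?_)))
    (Ar.and (ar_subX (arG_plc hq'.t) hq'.V hq.V) (Ar.all (Ar.imp hq'.F hq.F)))))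
  · exact Ar.gmemF (ArG.getD hy.w (ArG.prim pv0) 0)
      (hq.V.w.at ((arG_plc hq.t).w.add (ArG.prim pv0)))
  · exact Ar.gmemF (ArG.getD hy.w (ArG.prim pv0) 0)
      (arFin_ent hq'.t.w ((arG_plc hq.t).w.add (ArG.prim pv0)))

theorem ar_leS (hq' : ArC q') (hq : ArC q) : Ar (fun ρ a => LeS (q' ρ a) (q ρ a)) :=
  Ar.and (Ar.geq hq'.t hq.t) (Ar.and (ar_subX (arG_plc hq.t) hq'.V hq.V)
    (Ar.all (Ar.imp hq'.F hq.F)))

theorem ar_leK {κ : (ℕ → Set ℕ) → α → ℕ} (hκ : ArG κ) (hq' : ArC q') (hq : ArC q) :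
    Ar (fun ρ a => LeK (κ ρ a) (q' ρ a) (q ρ a)) := by
  refine Ar.and (ar_leS hq' hq) (Ar.and (Ar.all (Ar.imp (Ar.glt (ArG.prim pv0) hκ.w)
    (ar_finEq (hq'.V.w.at (ArG.prim pv0)) (hq.V.w.at (ArG.prim pv0)))))
    (Ar.allM hq.F (Ar.imp (Ar.gle (arG_plc (ArG.prim pv0)) hκ.w) hq'.F)))

theorem ar_cut {κ : (ℕ → Set ℕ) → α → ℕ} (hq : ArC q) (hκ : ArG κ) :
    Ar (fun ρ a => Cut (q ρ a) (κ ρ a)) :=
  Ar.and (Ar.gle (arG_plc hq.t) hκ) (ar_one_lt_card (hq.V.at hκ))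

theorem ar_leP {a' : (ℕ → Set ℕ) → α → List H} {a : (ℕ → Set ℕ) → α → List H} (ha' : ArG a')
    (hq' : ArC q') (ha : ArG a) (hq : ArC q) :
    Ar (fun ρ i => LeP (a' ρ i) (q' ρ i) (a ρ i) (q ρ i)) :=
  Ar.ex (Ar.and (Ar.geq ha'.w (ha.w.app_list (ArG.prim pv0))) (ar_le (ArG.prim pv0) hq'.w hq.w))

theorem ar_isReal {a : (ℕ → Set ℕ) → α → List H} {x : (ℕ → Set ℕ) → α → Node}
    {b : (ℕ → Set ℕ) → α → List H} (hq : ArC q) (ha : ArG a) (hx : ArG x) (hb : ArG b) :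
    Ar (fun ρ i => IsReal (q ρ i) (a ρ i) (x ρ i) (b ρ i)) := by
  refine Ar.and (ar_isPiece hq.t ha) (Ar.and (Ar.isPrefix ha hb) (Ar.and (ar_isPiece hx hb)
    (Ar.all (Ar.imp (Ar.gle (arG_plc hq.t).w (ArG.prim pv0)) (Ar.imp (Ar.glt (ArG.prim pv0)
      (arG_plc hx).w) ?_)))))
  exact Ar.gmemF (ArG.getD hb.w (ArG.prim pv0) 0) (hq.V.w.at (ArG.prim pv0))

theorem ar_leaf {κ : (ℕ → Set ℕ) → α → ℕ} {x : (ℕ → Set ℕ) → α → Node} (hq : ArC q) (hκ : ArG κ)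
    (hx : ArG x) : Ar (fun ρ i => Leaf (q ρ i) (κ ρ i) (x ρ i)) :=
  Ar.and (Ar.gmem hx hq.F) (Ar.and (Ar.gne hx hq.t) (Ar.and (Ar.gle (arG_plc hx) hκ)
    (Ar.all (Ar.imp (Ar.gle (arG_plc hx).w (ArG.prim pv0)) (Ar.imp (Ar.glt (ArG.prim pv0) hκ.w)
      (ar_card_one (hq.V.w.at (ArG.prim pv0))))))))

theorem ar_fresh {κ₀ κ : (ℕ → Set ℕ) → α → ℕ} (hκ₀ : ArG κ₀) (hq : ArC q) (hκ : ArG κ) :
    Ar (fun ρ i => Fresh (κ₀ ρ i) (q ρ i) (κ ρ i)) :=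
  Ar.allM hq.F (Ar.imp (Ar.glt hκ₀.w (arG_plc (ArG.prim pv0))) (Ar.imp
    (Ar.gle (arG_plc (ArG.prim pv0)) hκ.w) (ar_leaf hq.w hκ.w (ArG.prim pv0))))

theorem ar_reach {κ κ' : (ℕ → Set ℕ) → α → ℕ} {x x' : (ℕ → Set ℕ) → α → Node} (hq : ArC q)
    (hκ : ArG κ) (hx : ArG x) (hq' : ArC q') (hκ' : ArG κ') (hx' : ArG x') :
    Ar (fun ρ i => Reach (q ρ i) (κ ρ i) (x ρ i) (q' ρ i) (κ' ρ i) (x' ρ i)) := by
  refine Ar.and (ar_leS hq' hq) (Ar.and (Ar.gle hκ hκ') (Ar.and (ar_cut hq' hκ') (Ar.and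
    (Ar.all (Ar.imp (Ar.glt (ArG.prim pv0) hκ.w)
      (ar_finEq (hq'.V.w.at (ArG.prim pv0)) (hq.V.w.at (ArG.prim pv0))))) (Ar.and
    (Ar.all (Ar.imp (Ar.gle hκ.w (ArG.prim pv0)) (Ar.imp (Ar.glt (ArG.prim pv0) hκ'.w)
      (ar_card_one (hq'.V.w.at (ArG.prim pv0)))))) (Ar.and (Ar.isPrefix hx hx') (Ar.all
    (Ar.iff (Ar.and (Ar.gmem (ArG.prim pv0) hq'.F.w) (Ar.gle (arG_plc (ArG.prim pv0)) hκ'.w))
      (Ar.or (Ar.geq (ArG.prim pv0) hx'.w) (Ar.and (Ar.gmem (ArG.prim pv0) hq.F.w)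
        (Ar.and (Ar.gle (arG_plc (ArG.prim pv0)) hκ.w) (Ar.gne (ArG.prim pv0) hx.w)))))))))))

/-! ## Branches -/

theorem arG_preA {A : (ℕ → Set ℕ) → α → ℕ → β} (hA : ArG fun ρ (p : α × ℕ) => A ρ p.1 p.2)
    {n : (ℕ → Set ℕ) → α → ℕ} (hn : ArG n) :
    ArG (fun ρ a => (List.range (n ρ a)).map (A ρ a)) := by
  refine (Ar.and (R := fun ρ (p : α × List β) => p.2.length = n ρ p.1)
    (S := fun ρ (p : α × List β) => ∀ i, i < n ρ p.1 → p.2[i]? = some (A ρ p.1 i))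
    (Ar.geq (ArG.prim pv0).length hn.w)
    (Ar.all (Ar.imp (Ar.glt (ArG.prim pv0) hn.w.w) (Ar.geq (ArG.get? (ArG.prim pv1)
      (ArG.prim pv0)) (ArG.some (ArG.comp hA ((Primrec.fst.comp Primrec.fst).pair
        Primrec.snd))))))).of_eq fun ρ p => ?_
  constructor
  · intro h
    rw [← h]
    refine ⟨by simp, fun i hi => ?_⟩
    simp [List.getElem?_range hi]
  · rintro ⟨h1, h2⟩
    refine List.ext_getElem? fun i => ?_
    by_cases hi : i < n ρ p.1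
    · rw [h2 i hi]
      simp [List.getElem?_range hi]
    · rw [List.getElem?_eq_none (by simpa using hi), List.getElem?_eq_none (by omega)]

theorem ar_br {a : (ℕ → Set ℕ) → α → List H} {A : (ℕ → Set ℕ) → α → ℕ → H}
    {B : (ℕ → Set ℕ) → α → ℕ → Step} (hq : ArC q) (ha : ArG a)
    (hA : ArG fun ρ (p : α × ℕ) => A ρ p.1 p.2) (hB : ArG fun ρ (p : α × ℕ) => B ρ p.1 p.2) :
    Ar (fun ρ i => Br (q ρ i) (a ρ i) (A ρ i) (B ρ i)) := by
  have hA1 : ArG (fun ρ (p : (α × ℕ) × ℕ) => A ρ p.1.1 p.2) :=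
    ArG.comp hA ((Primrec.fst.comp Primrec.fst).pair Primrec.snd)
  have hA2 : ArG (fun ρ (p : (α × ℕ) × ℕ) => A ρ p.1.1 p.2) := hA1
  have hB1 : ArG (fun ρ (p : (α × ℕ) × ℕ) => B ρ p.1.1 p.2) :=
    ArG.comp hB ((Primrec.fst.comp Primrec.fst).pair Primrec.snd)
  have hP : ArG (fun ρ (p : α × ℕ) => preB (B ρ p.1) p.2) :=
    arG_preA (A := fun ρ (p : α × ℕ) => B ρ p.1) hB1 (ArG.prim pv0)
  have hP1 : ArG (fun ρ (p : (α × ℕ) × ℕ) => preB (B ρ p.1.1) p.2) :=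
    ArG.comp (F := fun ρ (p : α × ℕ) => preB (B ρ p.1) p.2) hP
      ((Primrec.fst.comp Primrec.fst).pair Primrec.snd)
  refine Ar.and (Ar.geq (arG_preA hA (arG_plc hq.t)) ha) (Ar.and
    (Ar.geq (arG_preA hB hq.t.length) hq.t) (Ar.and (Ar.all (Ar.all (Ar.imp ?_ ?_)))
    (Ar.and (Ar.all (Ar.imp ?_ ?_)) (Ar.all (Ar.ex (Ar.and ?_ ?_))))))
  · exact Ar.glt (ArG.prim pv0) (arG_plc hP).w
  · exact Ar.gmemF hA1 (arFin_ent hP.w (ArG.prim pv0))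
  · exact Ar.gle (arG_plc hq.t).w (ArG.prim pv0)
  · exact Ar.gmemF hA (hq.V.w.at (ArG.prim pv0))
  · exact Ar.gle (ArG.prim pv1) (ArG.prim pv0)
  · exact Ar.gmem hP1 hq.F.w.w

theorem ar_thru {B : (ℕ → Set ℕ) → α → ℕ → Step} {x : (ℕ → Set ℕ) → α → Node}
    (hB : ArG fun ρ (p : α × ℕ) => B ρ p.1 p.2) (hx : ArG x) :
    Ar (fun ρ i => Thru (B ρ i) (x ρ i)) := Ar.geq (arG_preA hB hx.length) hx

/-! ## Limits of fusion sequences -/

theorem arC_flim {Q : (ℕ → Set ℕ) → α → ℕ → Cond} (hQ : ArC fun ρ (p : α × ℕ) => Q ρ p.1 p.2)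
    {K : (ℕ → Set ℕ) → α → ℕ → ℕ} (hK : ArG fun ρ (p : α × ℕ) => K ρ p.1 p.2) :
    ArC (fun ρ a => flim (Q ρ a) (K ρ a)) := by
  refine ⟨?_, ?_, ?_⟩
  · exact (ArC.at (Q := Q) hQ (ArG.const 0)).t
  · have h1 : ArC (fun ρ (p : α × ℕ) => Q ρ p.1 (p.2 + 1)) :=
      hQ.comp (f := fun p : α × ℕ => (p.1, p.2 + 1))
        (Primrec.fst.pair (Primrec.succ.comp Primrec.snd))
    exact h1.V.at (ArG.prim pv0)
  · refine Ar.ex (R := fun ρ (p : α × Node) (n : ℕ) => plc p.2 ≤ K ρ p.1 n ∧ p.2 ∈ (Q ρ p.1 n).F)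
      (Ar.and ?_ ?_)
    · exact Ar.gle (arG_plc (ArG.prim pv1))
        (ArG.comp hK ((Primrec.fst.comp Primrec.fst).pair Primrec.snd))
    · exact Ar.gmem (ArG.prim pv1)
        (hQ.comp (f := fun p : (α × Node) × ℕ => (p.1.1, p.2))
          ((Primrec.fst.comp Primrec.fst).pair Primrec.snd)).F

/-! ## The top condition -/

theorem mem_topV {h : H} {i : ℕ} : h ∈ topV i ↔ ∀ j : ℕ, if j < i + 1 then h j < i + 1 else
    h j = 0 := by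
  unfold topV
  rw [Finset.mem_finsupp_iff]
  constructor
  · rintro ⟨h1, h2⟩ j
    split_ifs with hj
    · exact Finset.mem_range.1 (h2 j (Finset.mem_range.2 hj))
    · by_contra h3
      exact hj (Finset.mem_range.1 (h1 (Finsupp.mem_support_iff.2 h3)))
  · intro h1
    refine ⟨fun j hj => ?_, fun j hj => ?_⟩
    · by_contra h2
      have h3 := h1 j
      rw [if_neg (by simpa using h2)] at h3
      exact (Finsupp.mem_support_iff.1 hj) h3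
    · have h3 := h1 j
      rw [if_pos (Finset.mem_range.1 hj)] at h3
      exact Finset.mem_range.2 h3

theorem arV_topV : ArV (fun _ (_ : α) => topV) := by
  refine Ar.of_eq (R := fun _ (p : (α × ℕ) × H) => ∀ j : ℕ,
    (j < p.1.2 + 1 ∧ p.2 j < p.1.2 + 1) ∨ (¬ j < p.1.2 + 1 ∧ p.2 j = 0)) (Ar.all ?_) ?_
  · have h1 : Ar (fun _ (p : ((α × ℕ) × H) × ℕ) => p.2 < p.1.1.2 + 1) :=
      Ar.glt (ArG.prim pv0) (ArG.map Primrec.succ (ArG.prim pv2))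
    exact Ar.ite h1 (Ar.glt (arG_digit (ArG.prim pv1) (ArG.prim pv0))
      (ArG.map Primrec.succ (ArG.prim pv2))) (Ar.geq (arG_digit (ArG.prim pv1) (ArG.prim pv0))
        (ArG.const 0))
  · intro ρ p
    show p.2 ∈ topV p.1.2 ↔ _
    rw [mem_topV]
    refine forall_congr' fun j => ?_
    by_cases hj : j < p.1.2 + 1 <;> simp [hj]

theorem arC_topC : ArC (fun _ (_ : α) => topC) := by
  refine ⟨ArG.const _, arV_topV, ?_⟩
  refine Ar.and (ar_idx (ArG.prim pv0)) (Ar.all (Ar.imp (Ar.glt (ArG.prim pv0)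
    (arG_plc (ArG.prim pv1))) ?_))
  exact ar_subset (arFin_ent (ArG.prim pv1) (ArG.prim pv0)) (arV_topV.at (ArG.prim pv0))

/-! ## Codes -/

/-- The real which codes the pair of a list `a` and a condition. -/
def enc (a : List H) (q : Cond) : Set ℕ :=
  join (cons {pc a} (cons {pc q.t} (cons (scode {p : ℕ × H | p.2 ∈ q.V p.1})
    (cons (scode q.F) fun _ => ∅))))

/-- The list coded by a real. -/
def decA (x : Set ℕ) : List H := pick (col x 0)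

open Classical in
/-- The family coded by a real. -/
def decV (x : Set ℕ) : Fam := fun p =>
  if h : {v : H | pc (p, v) ∈ col x 2}.Finite then h.toFinset else ∅

/-- The condition coded by a real. -/
def decQ (x : Set ℕ) : Cond where
  t := pick (col x 1)
  V := decV x
  F := sdec (col x 3)

@[simp] theorem decA_enc (a : List H) (q : Cond) : decA (enc a q) = a := by
  simp [decA, enc]

@[simp] theorem decQ_enc (a : List H) (q : Cond) : decQ (enc a q) = q := by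
  have h1 : (pick (col (enc a q) 1) : Node) = q.t := by simp [enc]
  have h2 : decV (enc a q) = q.V := by
    funext p
    have h3 : {v : H | pc (p, v) ∈ col (enc a q) 2} = (q.V p : Set H) := by
      ext v
      simp only [enc, col_join, cons_succ, cons_zero, scode, Set.mem_ofPred_eq, Finset.mem_coe]
      constructor
      · rintro ⟨b, hb, e⟩
        rw [← pc_injective e] at hb
        exact hb
      · intro hv
        exact ⟨(p, v), hv, rfl⟩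
    unfold decV
    have hf : {v : H | pc (p, v) ∈ col (enc a q) 2}.Finite := by
      rw [h3]; exact (q.V p).finite_toSet
    rw [dif_pos hf]
    ext v
    rw [Set.Finite.mem_toFinset, h3, Finset.mem_coe]
  have h4 : (sdec (col (enc a q) 3) : Set Node) = q.F := by simp [enc]
  show Cond.mk _ _ _ = q
  rw [h1, h2, h4]

theorem arG_decA {X : (ℕ → Set ℕ) → α → Set ℕ} (hX : ArS X) : ArG (fun ρ a => decA (X ρ a)) :=
  ArG.pick (ArS.col hX (ArG.const 0))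

theorem mem_decV_iff {x : Set ℕ} {p : ℕ} {v : H} : v ∈ decV x p ↔ pc (p, v) ∈ col x 2 ∧
    ∃ N : ℕ, ∀ w : H, pc (p, w) ∈ col x 2 → pc w < N := by
  unfold decV
  split_ifs with hf
  · rw [Set.Finite.mem_toFinset]
    refine ⟨fun h => ⟨h, ?_⟩, fun h => h.1⟩
    obtain ⟨N, hN⟩ := (hf.image (fun w : H => pc w)).bddAbove
    exact ⟨N + 1, fun w hw => Nat.lt_succ_of_le (hN ⟨w, hw, rfl⟩)⟩
  · constructor
    · intro h
      exact (Finset.notMem_empty _ h).elim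
    · rintro ⟨_, N, hN⟩
      exact (hf (Set.Finite.of_finite_image (f := fun w : H => pc w)
        ((Set.finite_lt_nat N).subset (by rintro _ ⟨w, hw, rfl⟩; exact hN w hw))
        pc_injective.injOn)).elim

theorem arV_decV {X : (ℕ → Set ℕ) → α → Set ℕ} (hX : ArS X) : ArV (fun ρ a => decV (X ρ a)) := by
  refine Ar.of_eq (R := fun ρ (p : (α × ℕ) × H) => pc (p.1.2, p.2) ∈ col (X ρ p.1.1) 2 ∧
    ∃ N : ℕ, ∀ w : H, pc (p.1.2, w) ∈ col (X ρ p.1.1) 2 → pc w < N) (Ar.and ?_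
      (Ar.ex (Ar.all (Ar.imp ?_ ?_)))) (fun ρ p => mem_decV_iff)
  · exact Ar.gmemS (ArG.map primrec_pc ((ArG.prim pv1).pair (ArG.prim pv0)))
      (ArS.col (ArS.w (ArS.w hX)) (ArG.const 2))
  · exact Ar.gmemS (ArG.map primrec_pc ((ArG.prim pv3).pair (ArG.prim pv0)))
      (ArS.col (ArS.w (ArS.w (ArS.w (ArS.w hX)))) (ArG.const 2))
  · exact Ar.glt (ArG.map primrec_pc (ArG.prim pv0)) (ArG.prim pv1)

theorem arC_decQ {X : (ℕ → Set ℕ) → α → Set ℕ} (hX : ArS X) : ArC (fun ρ a => decQ (X ρ a)) :=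
  ⟨ArG.pick (ArS.col hX (ArG.const 1)), arV_decV hX, ArSet.sdec (ArS.col hX (ArG.const 3))⟩

theorem arS_enc {a : (ℕ → Set ℕ) → α → List H} (ha : ArG a) (hq : ArC q) :
    ArS (fun ρ i => enc (a ρ i) (q ρ i)) := by
  have h3 : ArS (fun ρ (p : α × ℕ) => cons (scode (q ρ p.1).F) (fun _ => ∅) p.2) :=
    ArS.cons (Y := fun _ _ _ => ∅) (ArS.scode hq.F) (ArS.w ArS.empty)
  have h2 : ArS (fun ρ (p : α × ℕ) => cons (scode {r : ℕ × H | r.2 ∈ (q ρ p.1).V r.1})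
      (cons (scode (q ρ p.1).F) (fun _ => ∅)) p.2) := by
    refine ArS.cons (X := fun ρ p => scode {r : ℕ × H | r.2 ∈ (q ρ p).V r.1})
      (Y := fun ρ p => cons (scode (q ρ p).F) (fun _ => ∅)) (ArS.scode ?_) h3
    exact Ar.gmemF (ArG.prim (Primrec.snd.comp pv0))
      (hq.V.w.at (ArG.prim (Primrec.fst.comp pv0)))
  have h1 : ArS (fun ρ (p : α × ℕ) => cons {pc (q ρ p.1).t}
      (cons (scode {r : ℕ × H | r.2 ∈ (q ρ p.1).V r.1})
      (cons (scode (q ρ p.1).F) (fun _ => ∅))) p.2) :=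
    ArS.cons (X := fun ρ p => {pc (q ρ p).t})
      (Y := fun ρ p => cons (scode {r : ℕ × H | r.2 ∈ (q ρ p).V r.1})
        (cons (scode (q ρ p).F) (fun _ => ∅))) (ArS.single (ArG.map primrec_pc hq.t)) h2
  refine ArS.join (s := fun ρ p => cons {pc (a ρ p)} (cons {pc (q ρ p).t}
      (cons (scode {r : ℕ × H | r.2 ∈ (q ρ p).V r.1})
      (cons (scode (q ρ p).F) (fun _ => ∅))))) ?_
  exact ArS.cons (X := fun ρ p => {pc (a ρ p)}) (Y := fun ρ p => cons {pc (q ρ p).t}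
      (cons (scode {r : ℕ × H | r.2 ∈ (q ρ p).V r.1})
      (cons (scode (q ρ p).F) (fun _ => ∅)))) (ArS.single (ArG.map primrec_pc ha)) h1

end Pool.Agent.Helper44.PC
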