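import Pool.Agent.Helper99.TT.Defs
import Pool.Agent.Helper44.CL.Arith

/-!
# Part C: codes for the finite objects (digits functions, steps, nodes)
-/

set_option autoImplicit false

noncomputable section

namespace Pool.Agent.Helper44.PC

open Helper99.TT Encodable
open Pool.Agent.Helper44.CL

/-- lists of numbers which do not end with a zero -/
def NZ (l : List ℕ) : Prop := ¬ l.reverse.head? = some 0

theorem primrecPred_nz : PrimrecPred NZ :=
  PrimrecPred.not (Primrec.eq.comp (Primrec.list_head?.comp Primrec.list_reverse)
    (Primrec.const (some 0)))

instance : DecidablePred NZ := fun l => by unfold NZ; infer_instance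

instance instNZ : Primcodable {l : List ℕ // NZ l} := Primcodable.subtype primrecPred_nz

/-- the digits function of a list -/
def ofL (l : List ℕ) : H := Finsupp.onFinset (Finset.range l.length) (fun i => l.getD i 0) (by
  intro i hi
  rw [Finset.mem_range]
  by_contra h
  exact hi (List.getD_eq_default _ _ (not_lt.1 h)))

theorem ofL_apply (l : List ℕ) (i : ℕ) : ofL l i = l.getD i 0 := rfl

/-- the number of digits -/
def len (v : H) : ℕ := v.support.sup (fun i => i + 1)

theorem lt_len {v : H} {i : ℕ} (h : v i ≠ 0) : i < len v :=
  Finset.le_sup (f := fun i => i + 1) (Finsupp.mem_support_iff.2 h)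

theorem exists_len {v : H} (h : len v ≠ 0) : v (len v - 1) ≠ 0 := by
  have hne : v.support.Nonempty := by
    by_contra hcon
    apply h
    rw [Finset.not_nonempty_iff_eq_empty] at hcon
    simp [len, hcon]
  obtain ⟨i, hi, he⟩ := Finset.exists_mem_eq_sup v.support hne (fun i => i + 1)
  have : len v = i + 1 := he
  rw [this]
  exact Finsupp.mem_support_iff.1 hi

/-- the list of the digits -/
def toL (v : H) : List ℕ := (List.range (len v)).map v

theorem toL_getD (v : H) (i : ℕ) : (toL v).getD i 0 = v i := by
  unfold toL
  by_cases h : i < len v
  · rw [List.getD_eq_getElem _ _ (by simpa using h)]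
    simp
  · rw [List.getD_eq_default _ _ (by simpa using h)]
    by_contra h2
    exact h (lt_len (Ne.symm h2))

theorem toL_nz (v : H) : NZ (toL v) := by
  unfold NZ toL
  intro h
  by_cases h0 : len v = 0
  · simp [h0] at h
  · rw [List.head?_reverse, List.getLast?_map, List.getLast?_range] at h
    simp only [h0, if_false, Option.map_some, Option.some.injEq] at h
    exact exists_len h0 h

theorem ofL_toL (v : H) : ofL (toL v) = v := by
  ext i
  rw [ofL_apply, toL_getD]

theorem toL_ofL {l : List ℕ} (hl : NZ l) : toL (ofL l) = l := by
  have hlen : len (ofL l) = l.length := by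
    apply le_antisymm
    · refine Finset.sup_le fun i hi => ?_
      by_contra h
      have := Finsupp.mem_support_iff.1 hi
      rw [ofL_apply] at this
      exact this (List.getD_eq_default _ _ (by omega))
    · by_contra h
      push Not at h
      have hpos : 0 < l.length := by omega
      have h1 : l.getD (l.length - 1) 0 ≠ 0 := by
        intro h2
        apply hl
        rw [List.head?_reverse, List.getLast?_eq_getElem?]
        rw [List.getD_eq_getElem _ _ (by omega)] at h2
        rw [List.getElem?_eq_getElem (by omega), h2]
      have := lt_len (v := ofL l) (i := l.length - 1) h1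
      omega
  apply List.ext_getElem
  · simp [toL, hlen]
  · intro i h1 h2
    simp only [toL, List.getElem_map, List.getElem_range, ofL_apply]
    rw [List.getD_eq_getElem _ _ h2]

/-- the equivalence of `H` with the lists without a last zero -/
def hEquiv : H ≃ {l : List ℕ // NZ l} where
  toFun v := ⟨toL v, toL_nz v⟩
  invFun l := ofL l.1
  left_inv v := ofL_toL v
  right_inv l := Subtype.ext (toL_ofL l.2)

instance instH : Primcodable H := Primcodable.ofEquiv _ hEquiv

/-- the codes of the elements of `H` are those of `instH` (not those of the instance for `Finsupp`) -/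
instance (priority := 10000) instEncH : Encodable H := instH.toEncodable

theorem primrec_toL : Primrec toL := by
  have h : Primrec (fun v : H => (hEquiv v).1) :=
    (Primrec.subtype_val (hp := primrecPred_nz)).comp (Primrec.of_equiv (e := hEquiv))
  exact h

/-- the digits are primitive recursive -/
theorem primrec_digit : Primrec₂ (fun (v : H) (i : ℕ) => v i) := by
  refine ((Primrec.list_getD 0).comp (primrec_toL.comp Primrec.fst) Primrec.snd).of_eq fun p => ?_
  exact toL_getD _ _

theorem primrec_ofL : Primrec (fun l : {l : List ℕ // NZ l} => ofL l.1) :=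
  Primrec.of_equiv_symm (e := hEquiv)

instance instDecH : DecidableEq H := inferInstance

/-- steps as triples -/
def stepEquiv : Step ≃ List H × H × H where
  toFun s := (s.u, s.v, s.w)
  invFun p := ⟨p.1, p.2.1, p.2.2⟩
  left_inv _ := rfl
  right_inv _ := rfl

instance instStep : Primcodable Step := Primcodable.ofEquiv _ stepEquiv

theorem primrec_u : Primrec Step.u :=
  Primrec.fst.comp (Primrec.of_equiv (e := stepEquiv))

theorem primrec_v : Primrec Step.v :=
  Primrec.fst.comp (Primrec.snd.comp (Primrec.of_equiv (e := stepEquiv)))

theorem primrec_w : Primrec Step.w :=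
  Primrec.snd.comp (Primrec.snd.comp (Primrec.of_equiv (e := stepEquiv)))

theorem primrec_mk : Primrec (fun p : List H × H × H => Step.mk p.1 p.2.1 p.2.2) :=
  Primrec.of_equiv_symm (e := stepEquiv)

instance instDecStep : DecidableEq Step := Classical.decEq _

theorem primrec_size : Primrec Step.size :=
  Primrec.succ.comp (Primrec.list_length.comp primrec_u)

theorem primrec_plc : Primrec plc := by
  have h : Primrec (fun x : Node => (x.map Step.size).foldr (fun a b => a + b) 0) := by
    refine Primrec.list_foldr (h := fun _ p => p.1 + p.2)
      (Primrec.list_map Primrec.id (primrec_size.comp Primrec.snd).to₂) (Primrec.const 0) ?_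
    exact (Primrec.nat_add.comp (Primrec.fst.comp Primrec.snd) (Primrec.snd.comp Primrec.snd)).to₂
  exact h.of_eq fun x => by simp [plc, List.sum]

end Pool.Agent.Helper44.PC
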